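import Mathlib

/-!
Plane maps, tessellations, valence sequences, coronas and growth rates.
-/

namespace Pool.Agent.Lib.MP_864d8b_co

open Set Filter Topology

/-- A plane map: a simple graph drawn in the plane, vertices as distinct points, edges as simple
arcs joining their ends, an arc containing no vertex other than its ends, and two different arcs
meeting only in vertices. -/
structure PlaneMap where
  V : Type
  G : SimpleGraph V
  pos : V → ℝ × ℝ
  arc : G.edgeSet → Set (ℝ × ℝ)
  pos_injective : Function.Injective pos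
  arc_spec : ∀ (u v : V) (h : G.Adj u v), ∃ γ : Path (pos u) (pos v),
    Function.Injective γ ∧ range γ = arc ⟨s(u, v), h⟩
  arc_vertex : ∀ (e : G.edgeSet) (w : V), pos w ∈ arc e → w ∈ (e : Sym2 V)
  arc_inter : ∀ e e' : G.edgeSet, e ≠ e' → arc e ∩ arc e' ⊆ range pos

namespace PlaneMap

variable (T : PlaneMap)

/-- The point set of the drawing. -/
def drawing : Set (ℝ × ℝ) := range T.pos ∪ ⋃ e, T.arc e

/-- The faces: connected components of the complement of the drawing. -/
def Face : Type :=
  {F : Set (ℝ × ℝ) // ∃ p, p ∉ T.drawing ∧ F = connectedComponentIn T.drawingᶜ p}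

/-- A vertex is incident with a face if it lies in the closure of the face. -/
def VInc (v : T.V) (f : T.Face) : Prop := T.pos v ∈ closure f.1

/-- An edge is incident with a face if its arc lies in the closure of the face. -/
def EInc (e : T.G.edgeSet) (f : T.Face) : Prop := T.arc e ⊆ closure f.1

/-- Infinite, 3-connected, locally finite, faces with finitely many edges, 1-ended, and without
accumulation point. -/
structure IsTessellation : Prop where
  infinite : Infinite T.V
  three_connected : ∀ S : Finset T.V, S.card ≤ 2 → (T.G.induce (↑S : Set T.V)ᶜ).Connected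
  locally_finite : ∀ v, (T.G.neighborSet v).Finite
  face_finite : ∀ f : T.Face, {e | T.EInc e f}.Finite
  one_ended : ∀ K : Finset T.V, ∃! C : T.G.ComponentCompl (↑K : Set T.V), C.supp.Infinite
  no_accumulation : ∀ p : ℝ × ℝ, ∃ N ∈ 𝓝 p, {v | T.pos v ∈ N}.Finite ∧
    {e | (T.arc e ∩ N).Nonempty}.Finite ∧ {f : T.Face | (f.1 ∩ N).Nonempty}.Finite

/-- Every face is bounded by a cycle `c 0, c 1, …, c (k-1)` (exactly its incident vertices and
edges) along which the valences read `σ`. -/
def HasSeq (σ : List ℕ) : Prop :=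
  ∀ f : T.Face, ∃ c : Fin σ.length → T.V, Function.Injective c ∧
    (∀ i, T.G.Adj (c i) (c (finRotate σ.length i))) ∧
    (∀ v, T.VInc v f ↔ ∃ i, v = c i) ∧
    (∀ e : T.G.edgeSet, T.EInc e f ↔ ∃ i, (e : Sym2 T.V) = s(c i, c (finRotate σ.length i))) ∧
    ∀ i, (T.G.neighborSet (c i)).ncard = σ.get i

/-- Isomorphism of maps: a graph isomorphism and a bijection of faces preserving incidence. -/
def Isomorphic (T' : PlaneMap) : Prop :=
  ∃ (φ : T.G ≃g T'.G) (ψ : T.Face ≃ T'.Face), ∀ v f, T.VInc v f ↔ T'.VInc (φ v) (ψ f)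

/-- The coronas `(U n, F n)` around the root `x`. -/
def corona (x : T.V) : ℕ → Set T.V × Set T.Face
  | 0 => ({x}, ∅)
  | n + 1 =>
    ({v | v ∉ (corona x n).1 ∧
        ∃ f, (f ∉ (corona x n).2 ∧ ∃ w ∈ (corona x n).1, T.VInc w f) ∧ T.VInc v f},
      {f | f ∉ (corona x n).2 ∧ ∃ w ∈ (corona x n).1, T.VInc w f})

/-- The growth rate `limsup |F n| ^ (1 / n)`, in `[0, ∞]`. -/
noncomputable def growth (x : T.V) : ENNReal :=
  limsup (fun n : ℕ => ((T.corona x n).2.encard : ENNReal) ^ ((1 : ℝ) / n)) atTop

end PlaneMap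

/-- At least two non-isomorphic tessellations have valence sequence `σ`. -/
def Polymorphic (σ : List ℕ) : Prop :=
  ∃ T T' : PlaneMap, T.IsTessellation ∧ T'.IsTessellation ∧ T.HasSeq σ ∧ T'.HasSeq σ ∧
    ¬ T.Isomorphic T'

/-- The growth rates of the tessellations with valence sequence `σ`. -/
def rates (σ : List ℕ) : Set ENNReal :=
  {g | ∃ (T : PlaneMap) (x : T.V), T.IsTessellation ∧ T.HasSeq σ ∧ T.growth x = g}

end Pool.Agent.Lib.MP_864d8b_co
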