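import Pool.Agent.Lib.MP_864d8b_co.Quad

-- part Pool.Agent.Lib.MP_864d8b_co.Subst
section

/-!
Layered maps generated by substitution systems.
-/

namespace Pool.Agent.Lib.MP_864d8b_co

open Set Filter Topology

/-- signed partial sums -/
noncomputable def cum (f : ℤ → ℤ) (i : ℤ) : ℤ := ∑ l ∈ Finset.Ico 0 i, f l - ∑ l ∈ Finset.Ico i 0, f l

lemma cum_zero (f : ℤ → ℤ) : cum f 0 = 0 := by simp [cum]

lemma cum_succ (f : ℤ → ℤ) (i : ℤ) : cum f (i + 1) = cum f i + f i := by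
  unfold cum
  rcases le_or_gt 0 i with h | h
  · have e1 : Finset.Ico 0 (i + 1) = insert i (Finset.Ico 0 i) := by
      ext l; simp only [Finset.mem_Ico, Finset.mem_insert]; omega
    rw [e1, Finset.sum_insert (by simp), Finset.Ico_eq_empty_of_le h,
      Finset.Ico_eq_empty_of_le (show (0 : ℤ) ≤ i + 1 by omega)]
    simp [add_comm]
  · have e1 : Finset.Ico i 0 = insert i (Finset.Ico (i + 1) 0) := by
      ext l; simp only [Finset.mem_Ico, Finset.mem_insert]; omega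
    rw [e1, Finset.sum_insert (by simp), Finset.Ico_eq_empty_of_le h.le,
      Finset.Ico_eq_empty_of_le (show i + 1 ≤ (0 : ℤ) by omega)]
    simp

lemma cum_add_nat (f : ℤ → ℤ) (i : ℤ) (k : ℕ) :
    cum f (i + k) = cum f i + ∑ j ∈ Finset.range k, f (i + j) := by
  induction k with
  | zero => simp
  | succ k ih =>
    rw [Finset.sum_range_succ, Nat.cast_succ, ← add_assoc, cum_succ, ih, add_assoc]

lemma strictMono_gap {F : ℤ → ℤ} (hF : StrictMono F) {i j : ℤ} (h : i ≤ j) :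
    F i + (j - i) ≤ F j := by
  induction j, h using Int.leInduction with
  | base => simp
  | succ j _ ih =>
    have := hF (show j < j + 1 by omega)
    omega

lemma exists_inv {F : ℤ → ℤ} (hF : StrictMono F) (m : ℤ) : ∃ i, F i ≤ m ∧ m < F (i + 1) := by
  obtain ⟨t, ht, ht'⟩ := Strips.exists_bracket (fun t => (F t : ℝ)) m
    (fun _ _ h => Int.cast_le.2 (hF.monotone h))
    ⟨|m - F 0| + 1, by
      have := strictMono_gap hF (show 0 ≤ |m - F 0| + 1 by positivity)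
      have h2 := le_abs_self (m - F 0)
      exact Int.cast_lt.2 (by omega)⟩
    ⟨-|m - F 0|, by
      have := strictMono_gap hF (show -|m - F 0| ≤ 0 by simp)
      have h2 := neg_abs_le (m - F 0)
      exact Int.cast_le.2 (by omega)⟩
  exact ⟨t, Int.cast_le.1 ht, Int.cast_lt.1 ht'⟩

open Classical in
noncomputable def inv (F : ℤ → ℤ) (m : ℤ) : ℤ :=
  if h : ∃ i, F i ≤ m ∧ m < F (i + 1) then h.choose else 0

lemma inv_spec {F : ℤ → ℤ} (hF : StrictMono F) (m : ℤ) :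
    F (inv F m) ≤ m ∧ m < F (inv F m + 1) := by
  unfold inv
  rw [dif_pos (exists_inv hF m)]
  exact (exists_inv hF m).choose_spec

lemma bracket_unique {F : ℤ → ℤ} (hF : StrictMono F) {m i j : ℤ} (h1 : F i ≤ m)
    (h2 : m < F (i + 1)) (h3 : F j ≤ m) (h4 : m < F (j + 1)) : i = j := by
  have e1 : i < j + 1 := hF.lt_iff_lt.1 (h1.trans_lt h4)
  have e2 : j < i + 1 := hF.lt_iff_lt.1 (h3.trans_lt h2)
  omega

lemma inv_eq {F : ℤ → ℤ} (hF : StrictMono F) {m i : ℤ} (h1 : F i ≤ m) (h2 : m < F (i + 1)) :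
    inv F m = i :=
  bracket_unique hF (inv_spec hF m).1 (inv_spec hF m).2 h1 h2

/-- A substitution system describing one half of a tessellation by quadrilaterals. -/
structure Sys (A : Type) (s0 s1 s2 s3 : ℕ) where
  d : A → ℕ
  u : A → ℕ
  ch : A → ℕ → A
  P : A → A → Prop
  w0 : ℤ → A
  d_pos : ∀ x, 1 ≤ d x
  u_ch : ∀ x, ∀ j < 2 * d x - 1, u (ch x j) = (j + 1) % 2
  u_w0 : ∀ i, u (w0 i) = d (w0 i)
  P_w0 : ∀ i, P (w0 i) (w0 (i + 1))
  P_in : ∀ x, ∀ j < 2 * d x - 2, P (ch x j) (ch x (j + 1))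
  P_out : ∀ x y, P x y → P (ch x (2 * d x - 2)) (ch y 0)
  face_in : ∀ x, ∀ j < d x - 1, Dih (2 + u x + d x) (2 + u (ch x (2 * j)) + d (ch x (2 * j)))
    (2 + u (ch x (2 * j + 1)) + d (ch x (2 * j + 1)))
    (2 + u (ch x (2 * j + 2)) + d (ch x (2 * j + 2))) s0 s1 s2 s3
  face_out : ∀ x y, P x y → Dih (2 + u x + d x)
    (2 + u (ch x (2 * d x - 2)) + d (ch x (2 * d x - 2))) (2 + u (ch y 0) + d (ch y 0))
    (2 + u y + d y) s0 s1 s2 s3

namespace Sys

variable {A : Type} {s0 s1 s2 s3 : ℕ} (S : Sys A s0 s1 s2 s3)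

noncomputable def D (w : ℤ → A) : ℤ → ℤ := cum (fun i => S.d (w i))

noncomputable def Pw (w : ℤ → A) (i : ℤ) : ℤ := 2 * S.D w i - i

noncomputable def top (w : ℤ → A) : ℤ → ℤ := inv (S.D w)

noncomputable def bot (w : ℤ → A) (t : ℤ) : ℤ := 2 * t - S.top w t

noncomputable def next (w : ℤ → A) (m : ℤ) : A :=
  S.ch (w (inv (S.Pw w) m)) (m - S.Pw w (inv (S.Pw w) m)).toNat

lemma D_succ (w : ℤ → A) (i : ℤ) : S.D w (i + 1) = S.D w i + S.d (w i) := cum_succ _ _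

lemma D_strictMono (w : ℤ → A) : StrictMono (S.D w) := by
  refine strictMono_int_of_lt_succ (fun i => ?_)
  have := S.d_pos (w i)
  rw [D_succ]; omega

lemma Pw_succ (w : ℤ → A) (i : ℤ) : S.Pw w (i + 1) = S.Pw w i + (2 * S.d (w i) - 1) := by
  unfold Pw; rw [D_succ]; ring

lemma Pw_strictMono (w : ℤ → A) : StrictMono (S.Pw w) := by
  refine strictMono_int_of_lt_succ (fun i => ?_)
  have := S.d_pos (w i)
  rw [Pw_succ]; omega

lemma next_eq (w : ℤ → A) (i : ℤ) (j : ℕ) (hj : j < 2 * S.d (w i) - 1) :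
    S.next w (S.Pw w i + j) = S.ch (w i) j := by
  have : inv (S.Pw w) (S.Pw w i + j) = i :=
    inv_eq (S.Pw_strictMono w) (by omega) (by rw [Pw_succ]; omega)
  unfold next
  rw [this]
  simp

lemma top_eq (w : ℤ → A) (i : ℤ) (j : ℕ) (hj : j < S.d (w i)) : S.top w (S.D w i + j) = i :=
  inv_eq (S.D_strictMono w) (by omega) (by rw [D_succ]; omega)

lemma bot_eq (w : ℤ → A) (i : ℤ) (j : ℕ) (hj : j < S.d (w i)) :
    S.bot w (S.D w i + j) = S.Pw w i + 2 * j := by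
  unfold bot Pw; rw [S.top_eq w i j hj]; ring

lemma decomp_t (w : ℤ → A) (t : ℤ) : ∃ (i : ℤ) (j : ℕ), j < S.d (w i) ∧ t = S.D w i + j := by
  obtain ⟨i, h1, h2⟩ := exists_inv (S.D_strictMono w) t
  rw [D_succ] at h2
  exact ⟨i, (t - S.D w i).toNat, by omega, by omega⟩

lemma decomp_m (w : ℤ → A) (m : ℤ) :
    ∃ (i : ℤ) (j : ℕ), j < 2 * S.d (w i) - 1 ∧ m = S.Pw w i + j := by
  obtain ⟨i, h1, h2⟩ := exists_inv (S.Pw_strictMono w) m
  rw [Pw_succ] at h2
  exact ⟨i, (m - S.Pw w i).toNat, by omega, by omega⟩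

lemma top_succ_in (w : ℤ → A) (i : ℤ) (j : ℕ) (hj : j + 1 < S.d (w i)) :
    S.top w (S.D w i + j + 1) = i := by
  have := S.top_eq w i (j + 1) hj
  rwa [Nat.cast_succ, ← add_assoc] at this

lemma top_succ_out (w : ℤ → A) (i : ℤ) (j : ℕ) (hj : j + 1 = S.d (w i)) :
    S.top w (S.D w i + j + 1) = i + 1 := by
  have := S.top_eq w (i + 1) 0 (S.d_pos _)
  rw [D_succ, ← hj] at this
  simpa [add_assoc] using this

lemma top_step (w : ℤ → A) (t : ℤ) :
    S.top w (t + 1) = S.top w t ∨ S.top w (t + 1) = S.top w t + 1 := by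
  obtain ⟨i, j, hj, rfl⟩ := S.decomp_t w t
  rw [S.top_eq w i j hj]
  rcases (show j + 1 < S.d (w i) ∨ j + 1 = S.d (w i) by omega) with h | h
  · exact Or.inl (S.top_succ_in w i j h)
  · exact Or.inr (S.top_succ_out w i j h)

lemma top_mono (w : ℤ → A) : Monotone (S.top w) := by
  refine monotone_int_of_le_succ (fun t => ?_)
  rcases S.top_step w t with h | h <;> omega

lemma bot_strictMono (w : ℤ → A) : StrictMono (S.bot w) := by
  refine strictMono_int_of_lt_succ (fun t => ?_)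
  unfold bot
  rcases S.top_step w t with h | h <;> omega

lemma top_D (w : ℤ → A) (i : ℤ) : S.top w (S.D w i) = i := by
  simpa using S.top_eq w i 0 (S.d_pos _)

lemma ncard_top (w : ℤ → A) (i : ℤ) : {t | S.top w t = i}.ncard = S.d (w i) := by
  have : {t | S.top w t = i} = (Finset.Ico (S.D w i) (S.D w (i + 1)) : Set ℤ) := by
    ext t
    simp only [mem_ofPred_eq, Finset.coe_Ico, mem_Ico]
    constructor
    · rintro rfl
      exact inv_spec (S.D_strictMono w) t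
    · rintro ⟨h1, h2⟩
      exact inv_eq (S.D_strictMono w) h1 h2
  rw [this, Set.ncard_coe_finset, Int.card_Ico, D_succ]
  simp

lemma ncard_bot (w : ℤ → A) (m : ℤ) : {t | S.bot w t = m}.ncard = S.u (S.next w m) := by
  obtain ⟨i, j, hj, rfl⟩ := S.decomp_m w m
  rw [S.next_eq w i j hj, S.u_ch _ j hj]
  rcases Nat.mod_two_eq_zero_or_one j with h | h
  · have : {t | S.bot w t = S.Pw w i + j} = {S.D w i + (j / 2 : ℕ)} := by
      have e := S.bot_eq w i (j / 2) (by omega)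
      have e2 : (2 : ℤ) * (j / 2 : ℕ) = j := by omega
      rw [e2] at e
      ext t
      simp only [mem_ofPred_eq, mem_singleton_iff]
      rw [← e]
      exact (S.bot_strictMono w).injective.eq_iff
    rw [this, Set.ncard_singleton]
    omega
  · have : {t | S.bot w t = S.Pw w i + j} = ∅ := by
      ext t
      simp only [mem_ofPred_eq, mem_empty_iff_false, iff_false]
      obtain ⟨i', j', hj', rfl⟩ := S.decomp_t w t
      rw [S.bot_eq w i' j' hj']
      intro e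
      have := bracket_unique (S.Pw_strictMono w) (m := S.Pw w i + j) (i := i) (j := i')
        (by omega) (by rw [Pw_succ]; omega) (by omega) (by rw [Pw_succ]; omega)
      subst this
      omega
    rw [this, Set.ncard_empty]
    omega

noncomputable def W : ℕ → ℤ → A
  | 0 => S.w0
  | n + 1 => S.next (W n)

lemma P_next (w : ℤ → A) (h : ∀ i, S.P (w i) (w (i + 1))) (m : ℤ) :
    S.P (S.next w m) (S.next w (m + 1)) := by
  obtain ⟨i, j, hj, rfl⟩ := S.decomp_m w m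
  rw [S.next_eq w i j hj]
  rcases (show j < 2 * S.d (w i) - 2 ∨ j = 2 * S.d (w i) - 2 by omega) with h' | h'
  · have := S.next_eq w i (j + 1) (by omega)
    rw [Nat.cast_succ, ← add_assoc] at this
    rw [this]
    exact S.P_in _ j h'
  · have e := S.next_eq w (i + 1) 0 (by have := S.d_pos (w (i + 1)); omega)
    have e2 : S.Pw w (i + 1) + ((0 : ℕ) : ℤ) = S.Pw w i + j + 1 := by rw [Pw_succ]; omega
    rw [e2] at e
    rw [e, h']
    exact S.P_out _ _ (h i)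

lemma P_W (n : ℕ) : ∀ i, S.P (S.W n i) (S.W n (i + 1)) := by
  induction n with
  | zero => exact S.P_w0
  | succ n ih => exact S.P_next _ ih

lemma int_cases (n : ℤ) : (∃ N : ℕ, n = N) ∨ ∃ N : ℕ, n = -(N : ℤ) - 1 := by
  rcases le_or_gt 0 n with h | h
  · exact Or.inl ⟨n.toNat, by omega⟩
  · exact Or.inr ⟨(-n - 1).toNat, by omega⟩

noncomputable def fa (n : ℤ) : ℤ → ℤ :=
  if 0 ≤ n then S.top (S.W n.toNat) else S.bot (S.W (-n - 1).toNat)

noncomputable def fb (n : ℤ) : ℤ → ℤ :=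
  if 0 ≤ n then S.bot (S.W n.toNat) else S.top (S.W (-n - 1).toNat)

lemma fa_pos (N : ℕ) : S.fa N = S.top (S.W N) := by simp [fa]

lemma fb_pos (N : ℕ) : S.fb N = S.bot (S.W N) := by simp [fb]

lemma fa_neg (N : ℕ) : S.fa (-(N : ℤ) - 1) = S.bot (S.W N) := by
  unfold fa
  rw [if_neg (by omega), show (-(-(N : ℤ) - 1) - 1).toNat = N by omega]

lemma fb_neg (N : ℕ) : S.fb (-(N : ℤ) - 1) = S.top (S.W N) := by
  unfold fb
  rw [if_neg (by omega), show (-(-(N : ℤ) - 1) - 1).toNat = N by omega]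

lemma bot_top (w : ℤ → A) (M : ℤ) : ∃ t, M ≤ S.bot w t := by
  obtain ⟨t, _, h⟩ := exists_inv (S.bot_strictMono w) M
  exact ⟨t + 1, h.le⟩

lemma bot_bot (w : ℤ → A) (M : ℤ) : ∃ t, S.bot w t ≤ M := by
  obtain ⟨t, h, _⟩ := exists_inv (S.bot_strictMono w) M
  exact ⟨t, h⟩

noncomputable def strips : Strips where
  a := S.fa
  b := S.fb
  a_mono n := by
    rcases int_cases n with ⟨N, rfl⟩ | ⟨N, rfl⟩
    · rw [fa_pos]; exact S.top_mono _
    · rw [fa_neg]; exact (S.bot_strictMono _).monotone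
  b_mono n := by
    rcases int_cases n with ⟨N, rfl⟩ | ⟨N, rfl⟩
    · rw [fb_pos]; exact (S.bot_strictMono _).monotone
    · rw [fb_neg]; exact S.top_mono _
  sum_eq n t := by
    rcases int_cases n with ⟨N, rfl⟩ | ⟨N, rfl⟩
    · rw [fa_pos, fb_pos]; unfold bot; ring
    · rw [fa_neg, fb_neg]; unfold bot; ring
  a_top n M := by
    rcases int_cases n with ⟨N, rfl⟩ | ⟨N, rfl⟩
    · rw [fa_pos]; exact ⟨_, (S.top_D _ M).ge⟩
    · rw [fa_neg]; exact S.bot_top _ M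
  a_bot n M := by
    rcases int_cases n with ⟨N, rfl⟩ | ⟨N, rfl⟩
    · rw [fa_pos]; exact ⟨_, (S.top_D _ M).le⟩
    · rw [fa_neg]; exact S.bot_bot _ M
  b_top n M := by
    rcases int_cases n with ⟨N, rfl⟩ | ⟨N, rfl⟩
    · rw [fb_pos]; exact S.bot_top _ M
    · rw [fb_neg]; exact ⟨_, (S.top_D _ M).ge⟩
  b_bot n M := by
    rcases int_cases n with ⟨N, rfl⟩ | ⟨N, rfl⟩
    · rw [fb_pos]; exact S.bot_bot _ M
    · rw [fb_neg]; exact ⟨_, (S.top_D _ M).le⟩
  cross i n := by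
    rcases int_cases n with ⟨N, rfl⟩ | ⟨N, rfl⟩
    · left; rw [fa_pos]; exact ⟨_, S.top_D _ i⟩
    · right
      rw [show -(N : ℤ) - 1 - 1 = -((N + 1 : ℕ) : ℤ) - 1 by push_cast; ring, fb_neg]
      exact ⟨_, S.top_D _ i⟩

lemma strips_a : S.strips.a = S.fa := rfl

lemma strips_b : S.strips.b = S.fb := rfl

lemma val_eq (i n : ℤ) (N : ℕ) (hN : n.natAbs = N) :
    S.strips.val (i, n) = 2 + S.u (S.W N i) + S.d (S.W N i) := by
  unfold Strips.val
  rw [Strips.valence_eq, strips_a, strips_b]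
  rcases N with _ | N
  · have : n = 0 := by omega
    subst this
    have e1 := S.fa_pos 0
    have e2 := S.fb_neg 0
    simp only [Nat.cast_zero, neg_zero] at e1 e2
    rw [e1, e2, ncard_top]
    have := S.u_w0 i
    simp only [W] at this ⊢
    omega
  · rcases (show n = ((N + 1 : ℕ) : ℤ) ∨ n = -(N : ℤ) - 1 by omega) with rfl | rfl
    · rw [fa_pos, show ((N + 1 : ℕ) : ℤ) - 1 = N by omega, fb_pos, ncard_top, ncard_bot]
      simp only [W]
      omega
    · rw [fa_neg, show -(N : ℤ) - 1 - 1 = -((N + 1 : ℕ) : ℤ) - 1 by omega, fb_neg, ncard_top,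
        ncard_bot]
      simp only [W]

lemma dih_in (N : ℕ) (i : ℤ) (j : ℕ) (hj : j + 1 < S.d (S.W N i)) (n m : ℤ) (hn : n.natAbs = N)
    (hm : m.natAbs = N + 1) :
    Dih (S.strips.val (i, n)) (S.strips.val (S.Pw (S.W N) i + 2 * j, m))
      (S.strips.val (S.Pw (S.W N) i + 2 * j + 1, m))
      (S.strips.val (S.Pw (S.W N) i + 2 * j + 2, m)) s0 s1 s2 s3 := by
  rw [S.val_eq _ _ _ hn, S.val_eq _ _ _ hm, S.val_eq _ _ _ hm, S.val_eq _ _ _ hm]
  have e0 := S.next_eq (S.W N) i (2 * j) (by omega)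
  have e1 := S.next_eq (S.W N) i (2 * j + 1) (by omega)
  have e2 := S.next_eq (S.W N) i (2 * j + 2) (by omega)
  push_cast at e0 e1 e2
  rw [← add_assoc] at e1 e2
  simp only [W]
  rw [e0, e1, e2]
  exact S.face_in _ j (by omega)

lemma dih_out (N : ℕ) (i : ℤ) (j : ℕ) (hj : j + 1 = S.d (S.W N i)) (n m : ℤ) (hn : n.natAbs = N)
    (hm : m.natAbs = N + 1) :
    Dih (S.strips.val (i, n)) (S.strips.val (S.Pw (S.W N) i + 2 * j, m))
      (S.strips.val (S.Pw (S.W N) i + 2 * j + 1, m))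
      (S.strips.val (i + 1, n)) s0 s1 s2 s3 := by
  rw [S.val_eq _ _ _ hn, S.val_eq _ _ _ hm, S.val_eq _ _ _ hm, S.val_eq _ _ _ hn]
  have e0 := S.next_eq (S.W N) i (2 * j) (by omega)
  have e1 := S.next_eq (S.W N) (i + 1) 0 (by have := S.d_pos (S.W N (i + 1)); omega)
  have e2 : S.Pw (S.W N) (i + 1) + ((0 : ℕ) : ℤ) = S.Pw (S.W N) i + 2 * j + 1 := by
    rw [Pw_succ]; omega
  rw [e2] at e1
  push_cast at e0
  simp only [W]
  rw [e0, e1, show 2 * j = 2 * S.d (S.W N i) - 2 by omega]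
  exact S.face_out _ _ (S.P_W N i)

theorem hasSeq : S.strips.map.HasSeq [s0, s1, s2, s3] := by
  refine S.strips.hasSeq_of ?_
  rintro ⟨n, t⟩
  rcases int_cases n with ⟨N, rfl⟩ | ⟨N, rfl⟩
  · obtain ⟨i, j, hj, rfl⟩ := S.decomp_t (S.W N) t
    have ea : S.strips.a N (S.D (S.W N) i + j) = i := by
      rw [strips_a, fa_pos, S.top_eq _ i j hj]
    have eb : S.strips.b N (S.D (S.W N) i + j) = S.Pw (S.W N) i + 2 * j := by
      rw [strips_b, fb_pos, S.bot_eq _ i j hj]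
    rcases (show j + 1 < S.d (S.W N i) ∨ j + 1 = S.d (S.W N i) by omega) with h | h
    · have hq := S.strips.quad0 N (S.D (S.W N) i + j)
        (by rw [ea, strips_a, fa_pos, S.top_succ_in _ i j h])
      rw [ea, eb] at hq
      exact hq.faceOK (S.dih_in N i j h _ _ (by omega) (by omega))
    · have hq := S.strips.quad1 N (S.D (S.W N) i + j)
        (by rw [ea, strips_a, fa_pos, S.top_succ_out _ i j h])
      rw [ea, eb] at hq
      exact hq.faceOK (S.dih_out N i j h _ _ (by omega) (by omega))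
  · obtain ⟨i, j, hj, rfl⟩ := S.decomp_t (S.W N) t
    have eb : S.strips.b (-(N : ℤ) - 1) (S.D (S.W N) i + j) = i := by
      rw [strips_b, fb_neg, S.top_eq _ i j hj]
    have ea : S.strips.a (-(N : ℤ) - 1) (S.D (S.W N) i + j) = S.Pw (S.W N) i + 2 * j := by
      rw [strips_a, fa_neg, S.bot_eq _ i j hj]
    rcases (show j + 1 < S.d (S.W N i) ∨ j + 1 = S.d (S.W N i) by omega) with h | h
    · have hq := S.strips.quad2 (-(N : ℤ) - 1) (S.D (S.W N) i + j)
        (by rw [eb, strips_b, fb_neg, S.top_succ_in _ i j h])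
      rw [ea, eb] at hq
      exact hq.faceOK (S.dih_in N i j h _ _ (by omega) (by omega))
    · have hq := S.strips.quad1 (-(N : ℤ) - 1) (S.D (S.W N) i + j) (by
        have e1 := S.strips.sum_eq (-(N : ℤ) - 1) (S.D (S.W N) i + j)
        have e2 := S.strips.sum_eq (-(N : ℤ) - 1) (S.D (S.W N) i + j + 1)
        have e3 : S.strips.b (-(N : ℤ) - 1) (S.D (S.W N) i + j + 1) = i + 1 := by
          rw [strips_b, fb_neg, S.top_succ_out _ i j h]
        omega)
      rw [ea, eb] at hq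
      exact hq.rev.rot.rot.faceOK (S.dih_out N i j h _ _ (by omega) (by omega))

end Sys

end Pool.Agent.Lib.MP_864d8b_co
end

-- part Pool.Agent.Lib.MP_864d8b_co.Growth
section

/-!
Growth rate bounds for layered maps generated by substitution systems.
-/

namespace Pool.Agent.Lib.MP_864d8b_co

open Set Filter Topology

lemma limsup_le_of_bound (F : ℕ → ℕ∞) (C c c' : ℝ) (hc : 0 < c) (hcc : c < c')
    (h : ∀ R : ℕ, ∃ k : ℕ, F R = k ∧ (k : ℝ) ≤ C * ((R : ℝ) + 1) ^ 2 * c ^ R) :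
    limsup (fun n : ℕ => (F n : ENNReal) ^ ((1 : ℝ) / n)) atTop ≤ ENNReal.ofReal c' := by
  have hc' : 0 < c' := hc.trans hcc
  have hq : |c / c'| < 1 := by
    rw [abs_of_pos (by positivity), div_lt_one hc']; exact hcc
  have t0 := tendsto_pow_const_mul_const_pow_of_abs_lt_one 0 hq
  have t1 := tendsto_pow_const_mul_const_pow_of_abs_lt_one 1 hq
  have t2 := tendsto_pow_const_mul_const_pow_of_abs_lt_one 2 hq
  have t3 : Tendsto (fun n : ℕ => C * ((n : ℝ) + 1) ^ 2 * (c / c') ^ n) atTop (𝓝 0) := by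
    have := ((t2.add (t1.const_mul 2)).add t0).const_mul C
    simp only [mul_zero, add_zero] at this
    refine this.congr (fun n => by ring)
  have ev := t3.eventually (eventually_le_nhds (show (0 : ℝ) < 1 by norm_num))
  refine limsup_le_of_le (by isBoundedDefault) ?_
  filter_upwards [ev, eventually_gt_atTop 0] with n hn hn0
  obtain ⟨k, hk, hk'⟩ := h n
  have e : (k : ℝ) ≤ c' ^ n := by
    have : C * ((n : ℝ) + 1) ^ 2 * c ^ n = (C * ((n : ℝ) + 1) ^ 2 * (c / c') ^ n) * c' ^ n := by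
      rw [div_pow]; field_simp
    rw [this] at hk'
    exact hk'.trans (mul_le_of_le_one_left (by positivity) hn)
  have e2 : (F n : ENNReal) ≤ ENNReal.ofReal c' ^ n := by
    rw [hk, ← ENNReal.ofReal_pow hc'.le]
    simpa using ENNReal.ofReal_le_ofReal e
  calc (F n : ENNReal) ^ ((1 : ℝ) / n) ≤ (ENNReal.ofReal c' ^ n) ^ ((1 : ℝ) / n) :=
        ENNReal.rpow_le_rpow e2 (by positivity)
    _ = ENNReal.ofReal c' := by
        rw [one_div]; exact ENNReal.pow_rpow_inv_natCast hn0.ne' _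

lemma le_limsup_of_bound (F : ℕ → ℕ∞) (C c c' : ℝ) (hC : 0 < C) (hc' : 0 < c') (hcc : c' < c)
    (h : ∀ R : ℕ, ∃ k : ℕ, (k : ℕ∞) ≤ F (R + 1) ∧ C * c ^ R ≤ k) :
    ENNReal.ofReal c' ≤ limsup (fun n : ℕ => (F n : ENNReal) ^ ((1 : ℝ) / n)) atTop := by
  have hq : 1 < c / c' := by rw [one_lt_div hc']; exact hcc
  have t := (tendsto_pow_atTop_atTop_of_one_lt hq).eventually_ge_atTop (c' / C)
  refine le_limsup_of_frequently_le (Eventually.frequently ?_) (by isBoundedDefault)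
  obtain ⟨N, hN⟩ := eventually_atTop.1 t
  filter_upwards [eventually_ge_atTop (N + 1)] with n hn
  obtain ⟨R, rfl⟩ : ∃ R, n = R + 1 := ⟨n - 1, by omega⟩
  obtain ⟨k, hk, hk'⟩ := h R
  have e : c' ^ (R + 1) ≤ k := by
    have h1 := hN R (by omega)
    rw [div_pow, div_le_div_iff₀ hC (by positivity)] at h1
    rw [pow_succ]
    linarith
  have e2 : ENNReal.ofReal c' ^ (R + 1) ≤ (F (R + 1) : ENNReal) := by
    rw [← ENNReal.ofReal_pow hc'.le]
    refine (ENNReal.ofReal_le_ofReal e).trans ?_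
    rw [ENNReal.ofReal_natCast]
    exact_mod_cast hk
  calc ENNReal.ofReal c' = (ENNReal.ofReal c' ^ (R + 1)) ^ ((1 : ℝ) / ((R + 1 : ℕ) : ℝ)) := by
        rw [one_div]; exact (ENNReal.pow_rpow_inv_natCast (by omega) _).symm
    _ ≤ _ := ENNReal.rpow_le_rpow e2 (by positivity)

namespace Sys

variable {A : Type} {s0 s1 s2 s3 : ℕ} (S : Sys A s0 s1 s2 s3)

/-- index of the half-plane strip -/
def lev (n : ℤ) : ℕ := if 0 ≤ n then n.toNat else (-n - 1).toNat

lemma lev_pos (N : ℕ) : lev N = N := by simp [lev]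

lemma lev_neg (N : ℕ) : lev (-(N : ℤ) - 1) = N := by
  unfold lev; rw [if_neg (by omega)]; omega

lemma bot_bounds (w : ℤ → A) (t : ℤ) :
    S.Pw w (S.top w t) ≤ S.bot w t ∧ S.bot w (t + 1) ≤ S.Pw w (S.top w t + 1) := by
  obtain ⟨i, j, hj, rfl⟩ := S.decomp_t w t
  rw [S.top_eq w i j hj, S.bot_eq w i j hj, Pw_succ]
  refine ⟨by omega, ?_⟩
  unfold bot
  rcases (show j + 1 < S.d (w i) ∨ j + 1 = S.d (w i) by omega) with h | h
  · rw [S.top_succ_in w i j h]; unfold Pw; omega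
  · rw [S.top_succ_out w i j h]; unfold Pw; omega

lemma inc_bounds {v : ℤ × ℤ} {n t : ℤ} (h : S.strips.inc v (n, t)) :
    (v.2.natAbs = lev n ∧ S.top (S.W (lev n)) t ≤ v.1 ∧ v.1 ≤ S.top (S.W (lev n)) t + 1) ∨
    (v.2.natAbs = lev n + 1 ∧ S.Pw (S.W (lev n)) (S.top (S.W (lev n)) t) ≤ v.1 ∧
      v.1 ≤ S.Pw (S.W (lev n)) (S.top (S.W (lev n)) t + 1)) := by
  unfold Strips.inc at h
  rw [strips_a, strips_b] at h
  rcases int_cases n with ⟨N, rfl⟩ | ⟨N, rfl⟩
  · rw [lev_pos]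
    simp only [fa_pos, fb_pos] at h
    have h1 := S.top_step (S.W N) t
    have h2 := S.bot_bounds (S.W N) t
    omega
  · rw [lev_neg]
    simp only [fa_neg, fb_neg] at h
    have h1 := S.top_step (S.W N) t
    have h2 := S.bot_bounds (S.W N) t
    omega

noncomputable def Q : ℕ → ℤ → ℤ
  | 0 => id
  | n + 1 => fun i => S.Pw (S.W n) (Q n i)

lemma Q_strictMono (n : ℕ) : StrictMono (S.Q n) := by
  induction n with
  | zero => exact strictMono_id
  | succ n ih => exact (S.Pw_strictMono _).comp ih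

def WinV (v : ℤ × ℤ) (lo hi : ℤ) : Prop :=
  S.Q v.2.natAbs lo ≤ v.1 ∧ v.1 ≤ S.Q v.2.natAbs hi

def WinF (q : ℤ × ℤ) (lo hi : ℤ) : Prop :=
  S.Q (lev q.1) lo ≤ S.top (S.W (lev q.1)) q.2 ∧
    S.top (S.W (lev q.1)) q.2 + 1 ≤ S.Q (lev q.1) hi

lemma winF_of_winV {v q : ℤ × ℤ} {lo hi : ℤ} (h : S.strips.inc v q) (hv : S.WinV v lo hi) :
    S.WinF q (lo - 1) (hi + 1) := by
  obtain ⟨n, t⟩ := q
  have e1 := S.Q_strictMono (lev n) (show lo - 1 < lo by omega)
  have e2 := S.Q_strictMono (lev n) (show hi < hi + 1 by omega)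
  unfold WinV at hv
  unfold WinF
  rcases S.inc_bounds h with ⟨h1, h2, h3⟩ | ⟨h1, h2, h3⟩
  · rw [h1] at hv
    simp only
    omega
  · rw [h1] at hv
    simp only [Q] at hv
    have f1 := (S.Pw_strictMono (S.W (lev n))).le_iff_le.1 (hv.1.trans h3)
    have f2 := (S.Pw_strictMono (S.W (lev n))).le_iff_le.1 (h2.trans hv.2)
    simp only
    omega

lemma winV_of_winF {v q : ℤ × ℤ} {lo hi : ℤ} (h : S.strips.inc v q) (hq : S.WinF q lo hi) :
    S.WinV v lo hi := by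
  obtain ⟨n, t⟩ := q
  unfold WinF at hq
  unfold WinV
  simp only at hq
  rcases S.inc_bounds h with ⟨h1, h2, h3⟩ | ⟨h1, h2, h3⟩
  · rw [h1]
    omega
  · rw [h1]
    simp only [Q]
    have f1 := (S.Pw_strictMono (S.W (lev n))).monotone hq.1
    have f2 := (S.Pw_strictMono (S.W (lev n))).monotone hq.2
    omega

lemma corona_inv (x : ℤ × ℤ) (lo hi : ℤ) (hx : S.WinV x lo hi) (R : ℕ) :
    (∀ v ∈ (S.strips.map.corona x R).1,
      v.2.natAbs ≤ x.2.natAbs + R ∧ S.WinV v (lo - R) (hi + R)) ∧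
    ∀ q, S.strips.face q ∈ (S.strips.map.corona x R).2 →
      lev q.1 + 1 ≤ x.2.natAbs + R ∧ S.WinF q (lo - R) (hi + R) := by
  induction R with
  | zero =>
    refine ⟨fun v hv => ?_, fun q hq => absurd hq (notMem_empty _)⟩
    have : v = x := hv
    subst this
    simpa using hx
  | succ R ih =>
    have key : ∀ q, (∃ w ∈ (S.strips.map.corona x R).1, S.strips.map.VInc w (S.strips.face q)) →
        lev q.1 + 1 ≤ x.2.natAbs + (R + 1) ∧
          S.WinF q (lo - ((R + 1 : ℕ) : ℤ)) (hi + ((R + 1 : ℕ) : ℤ)) := by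
      rintro ⟨n, t⟩ ⟨w, hw, hw'⟩
      replace hw' := (S.strips.vinc_iff w (n, t)).1 hw'
      obtain ⟨h1, h2⟩ := ih.1 w hw
      have h3 := S.winF_of_winV hw' h2
      have h4 := S.inc_bounds hw'
      refine ⟨by simp only; omega, ?_⟩
      push_cast
      rw [← sub_sub, ← add_assoc]
      exact h3
    refine ⟨?_, fun q hq => key q hq.2⟩
    rintro v ⟨-, f, ⟨-, hf⟩, hv⟩
    obtain ⟨⟨n, t⟩, rfl⟩ := S.strips.face_surjective f
    obtain ⟨h1, h2⟩ := key _ hf
    replace hv := (S.strips.vinc_iff v (n, t)).1 hv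
    have h4 := S.inc_bounds hv
    simp only at h1
    exact ⟨by omega, S.winV_of_winF hv h2⟩

lemma exists_win (x : ℤ × ℤ) : ∃ lo hi, lo ≤ hi ∧ S.WinV x lo hi := by
  obtain ⟨i, h1, h2⟩ := exists_inv (S.Q_strictMono x.2.natAbs) x.1
  exact ⟨i, i + 1, by omega, h1, h2.le⟩

noncomputable def Om (ω : A → ℕ) (n : ℕ) : ℤ → ℤ := cum (fun i => ω (S.W n i))

lemma Om_block (ω : A → ℕ) (n : ℕ) (i : ℤ) :
    S.Om ω (n + 1) (S.Pw (S.W n) (i + 1)) = S.Om ω (n + 1) (S.Pw (S.W n) i) +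
      ((∑ j ∈ Finset.range (2 * S.d (S.W n i) - 1), ω (S.ch (S.W n i) j) : ℕ) : ℤ) := by
  have hd := S.d_pos (S.W n i)
  have e : S.Pw (S.W n) (i + 1) = S.Pw (S.W n) i + ((2 * S.d (S.W n i) - 1 : ℕ) : ℤ) := by
    rw [Pw_succ]; omega
  unfold Om
  rw [e, cum_add_nat]
  push_cast
  congr 1
  refine Finset.sum_congr rfl (fun j hj => ?_)
  simp only [W]
  rw [S.next_eq _ i j (Finset.mem_range.1 hj)]

lemma Om_succ (ω : A → ℕ) (n : ℕ) (i : ℤ) :
    S.Om ω n (i + 1) = S.Om ω n i + ω (S.W n i) := cum_succ _ _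

lemma Om_upper (ω : A → ℕ) (p q : ℕ)
    (h : ∀ x, q * ∑ j ∈ Finset.range (2 * S.d x - 1), ω (S.ch x j) ≤ p * ω x)
    (n : ℕ) {i j : ℤ} (hij : i ≤ j) :
    (q : ℤ) ^ n * (S.Om ω n (S.Q n j) - S.Om ω n (S.Q n i)) ≤
      (p : ℤ) ^ n * (S.Om ω 0 j - S.Om ω 0 i) := by
  have step : ∀ (n : ℕ) {i j : ℤ}, i ≤ j →
      (q : ℤ) * (S.Om ω (n + 1) (S.Pw (S.W n) j) - S.Om ω (n + 1) (S.Pw (S.W n) i)) ≤
        p * (S.Om ω n j - S.Om ω n i) := by
    intro n i j hij
    induction j, hij using Int.leInduction with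
    | base => simp
    | succ j _ ih =>
      rw [Om_block, Om_succ]
      have := h (S.W n j)
      have h' : (q : ℤ) * ((∑ l ∈ Finset.range (2 * S.d (S.W n j) - 1),
          ω (S.ch (S.W n j) l) : ℕ) : ℤ) ≤ p * (ω (S.W n j) : ℤ) := by exact_mod_cast this
      linarith
  induction n with
  | zero => simp [Q]
  | succ n ih =>
    have h1 := step n ((S.Q_strictMono n).monotone hij)
    simp only [Q]
    have hq : (0 : ℤ) ≤ (q : ℤ) ^ n := by positivity
    have hp : (0 : ℤ) ≤ (p : ℤ) := by positivity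
    have h2 := mul_le_mul_of_nonneg_left h1 hq
    have h3 := mul_le_mul_of_nonneg_left ih hp
    rw [pow_succ, pow_succ]
    nlinarith

lemma Om_lower (ω : A → ℕ) (p q : ℕ)
    (h : ∀ x, p * ω x ≤ q * ∑ j ∈ Finset.range (2 * S.d x - 1), ω (S.ch x j))
    (n : ℕ) {i j : ℤ} (hij : i ≤ j) :
    (p : ℤ) ^ n * (S.Om ω 0 j - S.Om ω 0 i) ≤
      (q : ℤ) ^ n * (S.Om ω n (S.Q n j) - S.Om ω n (S.Q n i)) := by
  have step : ∀ (n : ℕ) {i j : ℤ}, i ≤ j → p * (S.Om ω n j - S.Om ω n i) ≤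
      (q : ℤ) * (S.Om ω (n + 1) (S.Pw (S.W n) j) - S.Om ω (n + 1) (S.Pw (S.W n) i)) := by
    intro n i j hij
    induction j, hij using Int.leInduction with
    | base => simp
    | succ j _ ih =>
      rw [Om_block, Om_succ]
      have := h (S.W n j)
      have h' : p * (ω (S.W n j) : ℤ) ≤ (q : ℤ) * ((∑ l ∈ Finset.range (2 * S.d (S.W n j) - 1),
          ω (S.ch (S.W n j) l) : ℕ) : ℤ) := by exact_mod_cast this
      linarith
  induction n with
  | zero => simp [Q]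
  | succ n ih =>
    have h1 := step n ((S.Q_strictMono n).monotone hij)
    simp only [Q]
    have hq : (0 : ℤ) ≤ (q : ℤ) ^ n := by positivity
    have hp : (0 : ℤ) ≤ (p : ℤ) := by positivity
    have h2 := mul_le_mul_of_nonneg_left h1 hq
    have h3 := mul_le_mul_of_nonneg_left ih hp
    rw [pow_succ, pow_succ]
    nlinarith

lemma Om_ge (ω : A → ℕ) (h : ∀ x, 1 ≤ ω x) (n : ℕ) {i j : ℤ} (hij : i ≤ j) :
    j - i ≤ S.Om ω n j - S.Om ω n i := by
  induction j, hij using Int.leInduction with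
  | base => simp
  | succ j _ ih =>
    rw [Om_succ]
    have := h (S.W n j)
    omega

lemma Om_le (ω : A → ℕ) (M : ℕ) (h : ∀ x, ω x ≤ M) (n : ℕ) {i j : ℤ} (hij : i ≤ j) :
    S.Om ω n j - S.Om ω n i ≤ M * (j - i) := by
  induction j, hij using Int.leInduction with
  | base => simp
  | succ j _ ih =>
    rw [Om_succ]
    have : (ω (S.W n j) : ℤ) ≤ M := by exact_mod_cast h (S.W n j)
    linarith

lemma Q_gap_le (ω : A → ℕ) (M : ℕ) (h1 : ∀ x, 1 ≤ ω x) (hM : ∀ x, ω x ≤ M)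
    (h : ∀ x, 8 * ∑ j ∈ Finset.range (2 * S.d x - 1), ω (S.ch x j) ≤ 37 * ω x)
    (n : ℕ) {i j : ℤ} (hij : i ≤ j) :
    ((S.Q n j - S.Q n i : ℤ) : ℝ) ≤ (37 / 8) ^ n * (M * (j - i)) := by
  have e1 := S.Om_upper ω 37 8 h n hij
  have e2 := S.Om_ge ω h1 n ((S.Q_strictMono n).monotone hij)
  have e3 := S.Om_le ω M hM 0 hij
  have e4 : ((8 : ℕ) : ℤ) ^ n * (S.Q n j - S.Q n i) ≤ ((37 : ℕ) : ℤ) ^ n * (M * (j - i)) :=
    ((mul_le_mul_of_nonneg_left e2 (by positivity)).trans e1).trans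
      (mul_le_mul_of_nonneg_left e3 (by positivity))
  have e5 : (8 : ℝ) ^ n * ((S.Q n j - S.Q n i : ℤ) : ℝ) ≤ (37 : ℝ) ^ n * (M * (j - i)) := by
    exact_mod_cast e4
  rw [div_pow, div_mul_eq_mul_div, le_div_iff₀ (by positivity)]
  linarith

theorem growth_le (ω : A → ℕ) (M : ℕ) (h1 : ∀ x, 1 ≤ ω x) (hM : ∀ x, ω x ≤ M)
    (h : ∀ x, 8 * ∑ j ∈ Finset.range (2 * S.d x - 1), ω (S.ch x j) ≤ 37 * ω x)
    (x : ℤ × ℤ) : S.strips.map.growth x ≤ ENNReal.ofReal (116 / 25) := by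
  obtain ⟨lo, hi, hlh, hx⟩ := S.exists_win x
  set N0 := x.2.natAbs with hN0
  refine limsup_le_of_bound (fun R => (S.strips.map.corona x R).2.encard)
    ((2 * N0 + 2) * (37 / 8) ^ N0 * (M * (hi - lo + 2))) (37 / 8) (116 / 25)
    (by norm_num) (by norm_num) (fun R => ?_)
  classical
  let B : Finset (ℤ × ℤ) := (Finset.Icc (-((N0 + R : ℕ) : ℤ)) (N0 + R : ℕ)).biUnion fun n =>
    if lev n + 1 ≤ N0 + R then
      (Finset.Ico (S.D (S.W (lev n)) (S.Q (lev n) (lo - R)))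
        (S.D (S.W (lev n)) (S.Q (lev n) (hi + R)))).image (fun t => (n, t))
    else ∅
  have hsub : (S.strips.map.corona x R).2 ⊆ S.strips.face '' (B : Set (ℤ × ℤ)) := by
    intro f hf
    obtain ⟨⟨n, t⟩, rfl⟩ := S.strips.face_surjective f
    obtain ⟨e1, e2, e3⟩ := (S.corona_inv x lo hi hx R).2 _ hf
    refine ⟨(n, t), ?_, rfl⟩
    simp only at e1 e2 e3
    simp only [B, Finset.coe_biUnion, mem_iUnion, Finset.mem_coe, Finset.mem_Icc]
    refine ⟨n, ?_, ?_⟩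
    · unfold lev at e1
      split_ifs at e1 <;> omega
    · rw [if_pos e1]
      refine Finset.mem_image.2 ⟨t, Finset.mem_Ico.2 ?_, rfl⟩
      have f1 := inv_spec (S.D_strictMono (S.W (lev n))) t
      have f2 := (S.D_strictMono (S.W (lev n))).monotone e2
      have f3 := (S.D_strictMono (S.W (lev n))).monotone e3
      unfold top at f2 f3
      omega
  have hfin : (S.strips.map.corona x R).2.Finite := (B.finite_toSet.image _).subset hsub
  refine ⟨(S.strips.map.corona x R).2.ncard, hfin.cast_ncard_eq.symm, ?_⟩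
  have c1 : (S.strips.map.corona x R).2.ncard ≤ B.card := by
    refine (Set.ncard_le_ncard hsub (B.finite_toSet.image _)).trans ?_
    refine (Set.ncard_image_le B.finite_toSet).trans ?_
    rw [Set.ncard_coe_finset]
  have hw : (0 : ℝ) ≤ hi - lo := by
    have : (lo : ℝ) ≤ hi := by exact_mod_cast hlh
    linarith
  have c2 : (B.card : ℝ) ≤ (2 * (N0 + R) + 1) *
      ((37 / 8) ^ (N0 + R) * (M * (hi - lo + 2 * R))) := by
    have := Finset.card_biUnion_le (s := Finset.Icc (-((N0 + R : ℕ) : ℤ)) (N0 + R : ℕ))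
      (t := fun n => if lev n + 1 ≤ N0 + R then
      (Finset.Ico (S.D (S.W (lev n)) (S.Q (lev n) (lo - R)))
        (S.D (S.W (lev n)) (S.Q (lev n) (hi + R)))).image (fun t => (n, t)) else ∅)
    refine (Nat.cast_le.2 this).trans ?_
    push_cast
    refine (Finset.sum_le_card_nsmul _ _
      ((37 / 8 : ℝ) ^ (N0 + R) * (M * ((hi : ℝ) - lo + 2 * R))) ?_).trans ?_
    · intro n _
      split_ifs with hn
      · refine (Nat.cast_le.2 Finset.card_image_le).trans ?_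
        rw [Int.card_Ico]
        have g0 : lo - R ≤ hi + R := by omega
        have g1 := (S.Q_strictMono (lev n)).monotone g0
        have g2 := strictMono_gap (S.D_strictMono (S.W (lev n))) g1
        have g3 := S.Q_gap_le ω M h1 hM h (lev n + 1) g0
        simp only [Q, Pw] at g3
        have g4 : (((S.D (S.W (lev n)) (S.Q (lev n) (hi + R)) -
            S.D (S.W (lev n)) (S.Q (lev n) (lo - R))).toNat : ℤ) : ℝ) ≤
            ((2 * S.D (S.W (lev n)) (S.Q (lev n) (hi + R)) - S.Q (lev n) (hi + R) -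
              (2 * S.D (S.W (lev n)) (S.Q (lev n) (lo - R)) - S.Q (lev n) (lo - R)) : ℤ) : ℝ) := by
          exact Int.cast_le.2 (by omega)
        rw [Int.cast_natCast] at g4
        refine (g4.trans g3).trans ?_
        push_cast
        have g5 : (37 / 8 : ℝ) ^ (lev n + 1) ≤ (37 / 8) ^ (N0 + R) :=
          pow_le_pow_right₀ (by norm_num) hn
        have g6 : (hi : ℝ) + R - (lo - R) = hi - lo + 2 * R := by ring
        rw [g6]
        exact mul_le_mul_of_nonneg_right g5 (by positivity)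
      · simp only [Finset.card_empty, Nat.cast_zero]
        positivity
    · rw [Int.card_Icc, nsmul_eq_mul]
      refine mul_le_mul_of_nonneg_right (le_of_eq ?_) (by positivity)
      have : ((N0 : ℤ) + R + 1 - -((N0 : ℤ) + R)).toNat = 2 * (N0 + R) + 1 := by omega
      rw [this]
      push_cast
      ring
  refine ((Nat.cast_le.2 c1).trans c2).trans ?_
  have k1 : (2 * ((N0 : ℝ) + R) + 1) ≤ (2 * N0 + 2) * (R + 1) := by
    have : (0 : ℝ) ≤ N0 * R := by positivity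
    nlinarith
  have k2 : (hi : ℝ) - lo + 2 * R ≤ (hi - lo + 2) * (R + 1) := by
    have : (0 : ℝ) ≤ (hi - lo) * R := by positivity
    nlinarith
  calc (2 * ((N0 : ℝ) + R) + 1) * ((37 / 8) ^ (N0 + R) * (M * (hi - lo + 2 * R)))
      ≤ ((2 * N0 + 2) * (R + 1)) * ((37 / 8) ^ (N0 + R) * (M * ((hi - lo + 2) * (R + 1)))) := by
        gcongr
    _ = _ := by rw [pow_add]; ring

theorem le_growth (ω : A → ℕ) (M : ℕ) (hM0 : 0 < M) (hM : ∀ x, ω x ≤ M) (h0 : 1 ≤ ω (S.w0 0))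
    (h : ∀ x, 93 * ω x ≤ 20 * ∑ j ∈ Finset.range (2 * S.d x - 1), ω (S.ch x j)) :
    ENNReal.ofReal (929 / 200) ≤ S.strips.map.growth ((0, 0) : ℤ × ℤ) := by
  have hx : S.WinV (0, 0) 0 0 := by simp [WinV, Q]
  have hface : ∀ (R : ℕ), (∀ m, S.Q R 0 ≤ m → m < S.Q R 1 →
      ((m, R) : ℤ × ℤ) ∈ (S.strips.map.corona ((0, 0) : ℤ × ℤ) R).1) →
      ∀ t, S.Q R 0 ≤ S.top (S.W R) t → S.top (S.W R) t < S.Q R 1 →
        S.strips.face (R, t) ∉ (S.strips.map.corona ((0, 0) : ℤ × ℤ) R).2 ∧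
        ∃ w ∈ (S.strips.map.corona ((0, 0) : ℤ × ℤ) R).1,
          S.strips.map.VInc w (S.strips.face (R, t)) := by
    intro R hR t h1 h2
    refine ⟨fun hf => ?_, (S.top (S.W R) t, R), hR _ h1 h2, ?_⟩
    · have := ((S.corona_inv (0, 0) 0 0 hx R).2 _ hf).1
      simp only [lev_pos] at this
      simp at this
    · rw [Strips.vinc_iff]
      left
      rw [strips_a]
      simp only [fa_pos]
      exact ⟨trivial, le_rfl, S.top_mono _ (by omega)⟩
  have hvert : ∀ (R : ℕ), ∀ m, S.Q R 0 ≤ m → m < S.Q R 1 →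
      ((m, R) : ℤ × ℤ) ∈ (S.strips.map.corona ((0, 0) : ℤ × ℤ) R).1 := by
    intro R
    induction R with
    | zero =>
      intro m h1 h2
      simp only [Q, id] at h1 h2
      have : m = 0 := by omega
      subst this
      rfl
    | succ R ih =>
      intro m h1 h2
      simp only [Q] at h1 h2
      obtain ⟨i, j, hj, rfl⟩ := S.decomp_m (S.W R) m
      have e1 : S.Q R 0 < i + 1 := (S.Pw_strictMono (S.W R)).lt_iff_lt.1
        (h1.trans_lt (by rw [Pw_succ]; omega))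
      have e2 : i < S.Q R 1 := (S.Pw_strictMono (S.W R)).lt_iff_lt.1 (lt_of_le_of_lt (by omega) h2)
      have ht := S.top_eq (S.W R) i (j / 2) (by omega)
      have hb := S.bot_eq (S.W R) i (j / 2) (by omega)
      refine ⟨fun hv => ?_, S.strips.face (R, S.D (S.W R) i + (j / 2 : ℕ)),
        hface R ih _ (by omega) (by omega), ?_⟩
      · have := ((S.corona_inv (0, 0) 0 0 hx R).1 _ hv).1
        simp only at this
        omega
      · rw [Strips.vinc_iff]
        right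
        rw [strips_b]
        simp only [fb_pos]
        have hb' := S.bot_strictMono (S.W R)
          (show S.D (S.W R) i + (j / 2 : ℕ) < S.D (S.W R) i + (j / 2 : ℕ) + 1 by omega)
        refine ⟨by push_cast; ring, by omega, by omega⟩
  refine le_limsup_of_bound (fun R => (S.strips.map.corona ((0, 0) : ℤ × ℤ) R).2.encard)
    (1 / M) (93 / 20) (929 / 200) (by positivity) (by norm_num) (by norm_num) (fun R => ?_)
  have g0 := (S.Q_strictMono R).monotone (show (0 : ℤ) ≤ 1 by omega)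
  refine ⟨(S.Q R 1 - S.Q R 0).toNat, ?_, ?_⟩
  · have hsub : (fun i => S.strips.face (R, S.D (S.W R) i)) '' (Finset.Ico (S.Q R 0) (S.Q R 1) : Set ℤ)
        ⊆ (S.strips.map.corona ((0, 0) : ℤ × ℤ) (R + 1)).2 := by
      rintro _ ⟨i, hi, rfl⟩
      simp only [Finset.coe_Ico, mem_Ico] at hi
      exact hface R (hvert R) _ (by rw [top_D]; exact hi.1) (by rw [top_D]; exact hi.2)
    refine le_trans (le_of_eq ?_) (Set.encard_le_encard hsub)
    rw [Function.Injective.encard_image, Set.encard_coe_eq_coe_finsetCard, Int.card_Ico]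
    intro i j hij
    have := (Prod.mk.inj (S.strips.face_injective hij)).2
    exact (S.D_strictMono _).injective this
  · have e1 := S.Om_lower ω 93 20 h R (show (0 : ℤ) ≤ 1 by omega)
    have e2 := S.Om_le ω M hM R g0
    have e3 := S.Om_succ ω 0 0
    simp only [W, zero_add] at e3
    have e4 : ((93 : ℕ) : ℤ) ^ R * 1 ≤ ((20 : ℕ) : ℤ) ^ R * (M * (S.Q R 1 - S.Q R 0)) :=
      ((mul_le_mul_of_nonneg_left (by omega) (by positivity)).trans e1).trans
        (mul_le_mul_of_nonneg_left e2 (by positivity))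
    have e5 : (93 : ℝ) ^ R * 1 ≤ (20 : ℝ) ^ R * (M * ((S.Q R 1 - S.Q R 0 : ℤ) : ℝ)) := by
      exact_mod_cast e4
    have e6 : (((S.Q R 1 - S.Q R 0).toNat : ℕ) : ℝ) = ((S.Q R 1 - S.Q R 0 : ℤ) : ℝ) := by
      rw [← Int.cast_natCast, Int.toNat_of_nonneg (by omega)]
    rw [e6, div_pow, div_mul_div_comm, div_le_iff₀ (by positivity)]
    linarith

end Sys

end Pool.Agent.Lib.MP_864d8b_co
end

-- part Pool.Agent.Lib.MP_864d8b_co.Examples
section

/-!
Four explicit substitution systems.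
-/

namespace Pool.Agent.Lib.MP_864d8b_co

def dA (x : Fin 15) : ℕ := [2, 1, 2, 1, 2, 1, 2, 2, 1, 2, 1, 12, 11, 12, 11].getD x 0

def uA (x : Fin 15) : ℕ := [0, 1, 0, 1, 0, 1, 0, 0, 1, 0, 1, 0, 1, 0, 1].getD x 0

def chA (x : Fin 15) (j : ℕ) : Fin 15 :=
  (([[1, 13, 10],
    [1],
    [12, 9, 1],
    [12],
    [10, 11, 1],
    [10],
    [1, 7, 12],
    [14, 0, 3],
    [14],
    [3, 4, 14],
    [3],
    [5, 2, 8, 6, 5, 2, 8, 6, 5, 2, 8, 6, 5, 2, 8, 6, 5, 2, 8, 6, 5, 2, 8],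
    [5, 2, 8, 6, 5, 2, 8, 6, 5, 2, 8, 6, 5, 2, 8, 6, 5, 2, 8, 6, 5],
    [8, 6, 5, 2, 8, 6, 5, 2, 8, 6, 5, 2, 8, 6, 5, 2, 8, 6, 5, 2, 8, 6, 5],
    [8, 6, 5, 2, 8, 6, 5, 2, 8, 6, 5, 2, 8, 6, 5, 2, 8, 6, 5, 2, 8]] : List (List (Fin 15))).getD x []).getD j 0

def PA : List (Fin 15 × Fin 15) :=
  [(0, 3), (1, 7), (1, 8), (1, 13), (1, 14), (2, 8), (3, 4), (3, 5), (4, 14), (5, 2), (5, 3), (6, 5), (7, 12), (8, 1), (8, 6), (9, 1), (10, 11), (10, 12), (11, 1), (12, 9), (12, 10), (13, 10), (14, 0), (14, 1)]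

def wA (i : ℤ) : Fin 15 := if i % 2 = 0 then 3 else 5

def sysA : Sys (Fin 15) 4 4 4 14 where
  d := dA
  u := uA
  ch := chA
  P x y := (x, y) ∈ PA
  w0 := wA
  d_pos := by decide
  u_ch := by decide
  u_w0 := by
    intro i
    rcases (show (i % 2 = 0 ∧ (i + 1) % 2 = 1) ∨ (i % 2 = 1 ∧ (i + 1) % 2 = 0) by omega) with
      ⟨h1, h2⟩ | ⟨h1, h2⟩ <;> simp only [wA, h1] <;> decide
  P_w0 := by
    intro i
    rcases (show (i % 2 = 0 ∧ (i + 1) % 2 = 1) ∨ (i % 2 = 1 ∧ (i + 1) % 2 = 0) by omega) with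
      ⟨h1, h2⟩ | ⟨h1, h2⟩ <;> simp only [wA, h1, h2] <;> decide
  P_in := by decide
  P_out := by decide
  face_in := by decide
  face_out := by decide

theorem growthA (x : ℤ × ℤ) : sysA.strips.map.growth x ≤ ENNReal.ofReal (116 / 25) :=
  sysA.growth_le (fun x : Fin 15 => [7, 1, 7, 5, 7, 1, 7, 8, 5, 8, 2, 25, 22, 25, 23].getD x 0) 25
    (by decide) (by decide) (by decide) x

def dB (x : Fin 5) : ℕ := [1, 2, 1, 12, 11].getD x 0

def uB (x : Fin 5) : ℕ := [1, 0, 1, 0, 1].getD x 0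

def chB (x : Fin 5) (j : ℕ) : Fin 5 :=
  (([[4],
    [2, 3, 2],
    [2],
    [0, 1, 0, 1, 0, 1, 0, 1, 0, 1, 0, 1, 0, 1, 0, 1, 0, 1, 0, 1, 0, 1, 0],
    [0, 1, 0, 1, 0, 1, 0, 1, 0, 1, 0, 1, 0, 1, 0, 1, 0, 1, 0, 1, 0]] : List (List (Fin 5))).getD x []).getD j 0

def PB : List (Fin 5 × Fin 5) :=
  [(0, 1), (0, 2), (1, 0), (2, 0), (2, 3), (2, 4), (3, 2), (4, 2)]

def wB (i : ℤ) : Fin 5 := if i % 2 = 0 then 0 else 2

def sysB : Sys (Fin 5) 4 4 4 14 where
  d := dB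
  u := uB
  ch := chB
  P x y := (x, y) ∈ PB
  w0 := wB
  d_pos := by decide
  u_ch := by decide
  u_w0 := by
    intro i
    rcases (show (i % 2 = 0 ∧ (i + 1) % 2 = 1) ∨ (i % 2 = 1 ∧ (i + 1) % 2 = 0) by omega) with
      ⟨h1, h2⟩ | ⟨h1, h2⟩ <;> simp only [wB, h1] <;> decide
  P_w0 := by
    intro i
    rcases (show (i % 2 = 0 ∧ (i + 1) % 2 = 1) ∨ (i % 2 = 1 ∧ (i + 1) % 2 = 0) by omega) with
      ⟨h1, h2⟩ | ⟨h1, h2⟩ <;> simp only [wB, h1, h2] <;> decide
  P_in := by decide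
  P_out := by decide
  face_in := by decide
  face_out := by decide

theorem growthB : ENNReal.ofReal (929 / 200) ≤ sysB.strips.map.growth ((0, 0) : ℤ × ℤ) :=
  sysB.le_growth (fun x : Fin 5 => [19, 21, 0, 98, 90].getD x 0) 100
    (by decide) (by decide) (by decide) (by decide)

def dC (x : Fin 9) : ℕ := [2, 1, 4, 3, 2, 4, 3, 4, 3].getD x 0

def uC (x : Fin 9) : ℕ := [0, 1, 0, 1, 2, 0, 1, 0, 1].getD x 0

def chC (x : Fin 9) (j : ℕ) : Fin 9 :=
  (([[6, 2, 6],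
    [6],
    [1, 7, 3, 0, 8, 5, 1],
    [1, 7, 3, 0, 8],
    [1, 7, 3],
    [8, 5, 1, 7, 3, 0, 8],
    [8, 5, 1, 7, 3],
    [3, 0, 8, 5, 1, 7, 3],
    [3, 0, 8, 5, 1]] : List (List (Fin 9))).getD x []).getD j 0

def PC : List (Fin 9 × Fin 9) :=
  [(0, 8), (1, 7), (1, 8), (2, 6), (3, 0), (3, 1), (4, 4), (5, 1), (6, 2), (6, 3), (7, 3), (8, 5), (8, 6)]

def wC (_i : ℤ) : Fin 9 := 4

def sysC : Sys (Fin 9) 4 6 6 6 where
  d := dC
  u := uC
  ch := chC
  P x y := (x, y) ∈ PC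
  w0 := wC
  d_pos := by decide
  u_ch := by decide
  u_w0 := by
    intro i
    simp only [wC]
    decide
  P_w0 := by
    intro i
    simp only [wC]
    decide
  P_in := by decide
  P_out := by decide
  face_in := by decide
  face_out := by decide

theorem growthC (x : ℤ × ℤ) : sysC.strips.map.growth x ≤ ENNReal.ofReal (116 / 25) :=
  sysC.growth_le (fun x : Fin 9 => [47, 15, 81, 58, 36, 90, 68, 90, 58].getD x 0) 90
    (by decide) (by decide) (by decide) x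

def dD (x : Fin 11) : ℕ := [2, 1, 4, 3, 2, 4, 3, 2, 4, 3, 2].getD x 0

def uD (x : Fin 11) : ℕ := [0, 1, 0, 1, 2, 0, 1, 2, 0, 1, 2].getD x 0

def chD (x : Fin 11) (j : ℕ) : Fin 11 :=
  (([[3, 5, 3],
    [3],
    [1, 8, 6, 2, 1, 8, 6],
    [1, 8, 6, 2, 1],
    [1, 8, 6],
    [9, 0, 9, 0, 9, 0, 9],
    [9, 0, 9, 0, 9],
    [9, 0, 9],
    [6, 2, 1, 8, 6, 2, 1],
    [6, 2, 1, 8, 6],
    [6, 2, 1]] : List (List (Fin 11))).getD x []).getD j 0

def PD : List (Fin 11 × Fin 11) :=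
  [(0, 9), (1, 8), (1, 9), (1, 10), (2, 1), (3, 5), (3, 6), (4, 1), (5, 3), (6, 2), (6, 3), (7, 4), (8, 6), (9, 0), (9, 1), (10, 7)]

def wD (i : ℤ) : Fin 11 := if i % 4 = 0 then 1 else if i % 4 = 1 then 10 else if i % 4 = 2 then 7 else 4

def sysD : Sys (Fin 11) 4 6 6 6 where
  d := dD
  u := uD
  ch := chD
  P x y := (x, y) ∈ PD
  w0 := wD
  d_pos := by decide
  u_ch := by decide
  u_w0 := by
    intro i
    rcases (show (i % 4 = 0 ∧ (i + 1) % 4 = 1) ∨ (i % 4 = 1 ∧ (i + 1) % 4 = 2) ∨ (i % 4 = 2 ∧ (i + 1) % 4 = 3) ∨ (i % 4 = 3 ∧ (i + 1) % 4 = 0) by omega) with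
      ⟨h1, h2⟩ | ⟨h1, h2⟩ | ⟨h1, h2⟩ | ⟨h1, h2⟩ <;> simp only [wD, h1] <;> decide
  P_w0 := by
    intro i
    rcases (show (i % 4 = 0 ∧ (i + 1) % 4 = 1) ∨ (i % 4 = 1 ∧ (i + 1) % 4 = 2) ∨ (i % 4 = 2 ∧ (i + 1) % 4 = 3) ∨ (i % 4 = 3 ∧ (i + 1) % 4 = 0) by omega) with
      ⟨h1, h2⟩ | ⟨h1, h2⟩ | ⟨h1, h2⟩ | ⟨h1, h2⟩ <;> simp only [wD, h1, h2] <;> decide
  P_in := by decide
  P_out := by decide
  face_in := by decide
  face_out := by decide

theorem growthD : ENNReal.ofReal (929 / 200) ≤ sysD.strips.map.growth ((0, 0) : ℤ × ℤ) :=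
  sysD.le_growth (fun x : Fin 11 => [95, 27, 200, 127, 78, 191, 138, 85, 200, 151, 78].getD x 0) 200
    (by decide) (by decide) (by decide) (by decide)

end Pool.Agent.Lib.MP_864d8b_co
end
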