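import Pool.Agent.Lib.MP_864d8b_co.Defs

-- part Pool.Agent.Lib.MP_864d8b_co.Strip
section

/-!
Layered plane maps on `ℤ × ℤ` with straight edges and quadrilateral faces.
-/

namespace Pool.Agent.Lib.MP_864d8b_co

open Set Filter Topology

/-- Data of a layered map: the `t`-th cross edge of strip `n` joins `(a n t, n)` to
`(b n t, n+1)`. -/
structure Strips where
  a : ℤ → ℤ → ℤ
  b : ℤ → ℤ → ℤ
  a_mono : ∀ n, Monotone (a n)
  b_mono : ∀ n, Monotone (b n)
  sum_eq : ∀ n t, a n t + b n t = 2 * t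
  a_top : ∀ n M, ∃ t, M ≤ a n t
  a_bot : ∀ n M, ∃ t, a n t ≤ M
  b_top : ∀ n M, ∃ t, M ≤ b n t
  b_bot : ∀ n M, ∃ t, b n t ≤ M
  cross : ∀ i n, (∃ t, a n t = i) ∨ (∃ t, b (n - 1) t = i)

namespace Strips

variable (L : Strips)

def adj (u v : ℤ × ℤ) : Prop :=
  (v.2 = u.2 ∧ (v.1 = u.1 + 1 ∨ u.1 = v.1 + 1)) ∨
  (v.2 = u.2 + 1 ∧ ∃ t, L.a u.2 t = u.1 ∧ L.b u.2 t = v.1) ∨
  (u.2 = v.2 + 1 ∧ ∃ t, L.a v.2 t = v.1 ∧ L.b v.2 t = u.1)

def graph : SimpleGraph (ℤ × ℤ) where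
  Adj := L.adj
  symm := ⟨by
    intro u v h
    rcases h with ⟨h1, h2⟩ | h | h
    · exact Or.inl ⟨h1.symm, h2.symm⟩
    · exact Or.inr (Or.inr h)
    · exact Or.inr (Or.inl h)⟩
  loopless := ⟨by
    intro u h
    rcases h with ⟨_, h2⟩ | ⟨h, _⟩ | ⟨h, _⟩ <;> omega⟩

lemma graph_adj (u v : ℤ × ℤ) : L.graph.Adj u v ↔ L.adj u v := Iff.rfl

lemma adj_h (i n : ℤ) : L.graph.Adj (i, n) (i + 1, n) := Or.inl ⟨rfl, Or.inl rfl⟩

lemma adj_c (n t : ℤ) : L.graph.Adj (L.a n t, n) (L.b n t, n + 1) :=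
  Or.inr (Or.inl ⟨rfl, t, rfl, rfl⟩)

def pos (u : ℤ × ℤ) : ℝ × ℝ := ((u.1 : ℝ), (u.2 : ℝ))

lemma pos_injective : Function.Injective pos := by
  intro u v h
  simp only [pos, Prod.mk.injEq, Int.cast_inj] at h
  exact Prod.ext h.1 h.2

def seg (e : Sym2 (ℤ × ℤ)) : Set (ℝ × ℝ) :=
  Sym2.lift ⟨fun u v => segment ℝ (pos u) (pos v), fun _ _ => segment_symm _ _ _⟩ e

lemma seg_mk (u v : ℤ × ℤ) : seg s(u, v) = segment ℝ (pos u) (pos v) := rfl

/-- abscissa of the `t`-th cross edge of strip `n` at height `y` -/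
def X (n t : ℤ) (y : ℝ) : ℝ := L.a n t + (y - n) * (L.b n t - L.a n t)

lemma edge_cases (e : L.graph.edgeSet) :
    (∃ i n, (e : Sym2 (ℤ × ℤ)) = s((i, n), (i + 1, n))) ∨
      (∃ n t, (e : Sym2 (ℤ × ℤ)) = s((L.a n t, n), (L.b n t, n + 1))) := by
  obtain ⟨e, he⟩ := e
  induction e using Sym2.ind with
  | h u v =>
    obtain ⟨i, n⟩ := u
    obtain ⟨j, m⟩ := v
    have h : L.adj (i, n) (j, m) := he
    rcases h with ⟨h1, h2 | h2⟩ | ⟨h1, t, h2, h3⟩ | ⟨h1, t, h2, h3⟩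
    · simp only at h1 h2; subst h1 h2; exact Or.inl ⟨i, m, rfl⟩
    · simp only at h1 h2; subst h1 h2; exact Or.inl ⟨j, m, Sym2.eq_swap⟩
    · simp only at h1 h2 h3; subst h1 h2 h3; exact Or.inr ⟨n, t, rfl⟩
    · simp only at h1 h2 h3; subst h1 h2 h3; exact Or.inr ⟨m, t, Sym2.eq_swap⟩

lemma mem_hseg (i n : ℤ) (p : ℝ × ℝ) :
    p ∈ seg s((i, n), (i + 1, n)) ↔ p.2 = n ∧ (i : ℝ) ≤ p.1 ∧ p.1 ≤ i + 1 := by
  rw [seg_mk, segment_eq_image]
  obtain ⟨x, y⟩ := p
  simp only [pos, mem_image, mem_Icc, Prod.smul_mk, smul_eq_mul, Prod.mk_add_mk, Prod.mk.injEq,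
    Int.cast_add, Int.cast_one]
  constructor
  · rintro ⟨θ, ⟨h0, h1⟩, hx, hy⟩
    refine ⟨by linarith, by nlinarith, by nlinarith⟩
  · rintro ⟨hy, h0, h1⟩
    refine ⟨x - i, ⟨by linarith, by linarith⟩, by ring, by rw [hy]; ring⟩

lemma mem_cseg (n t : ℤ) (p : ℝ × ℝ) :
    p ∈ seg s((L.a n t, n), (L.b n t, n + 1)) ↔
      (n : ℝ) ≤ p.2 ∧ p.2 ≤ n + 1 ∧ p.1 = L.X n t p.2 := by
  rw [seg_mk, segment_eq_image]
  obtain ⟨x, y⟩ := p
  simp only [pos, X, mem_image, mem_Icc, Prod.smul_mk, smul_eq_mul, Prod.mk_add_mk, Prod.mk.injEq,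
    Int.cast_add, Int.cast_one]
  constructor
  · rintro ⟨θ, ⟨h0, h1⟩, hx, hy⟩
    have : θ = y - n := by linarith
    refine ⟨by linarith, by linarith, ?_⟩
    rw [← hx, ← this]; ring
  · rintro ⟨h0, h1, hx⟩
    refine ⟨y - n, ⟨by linarith, by linarith⟩, by rw [hx]; ring, by ring⟩

lemma X_bot (n t : ℤ) : L.X n t n = L.a n t := by simp [X]

lemma X_top (n t : ℤ) : L.X n t (n + 1) = L.b n t := by simp [X]

lemma X_mono (n : ℤ) {y : ℝ} (h0 : (n : ℝ) ≤ y) (h1 : y ≤ n + 1) {t t' : ℤ} (h : t ≤ t') :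
    L.X n t y ≤ L.X n t' y := by
  have ha : (L.a n t : ℝ) ≤ L.a n t' := by exact_mod_cast L.a_mono n h
  have hb : (L.b n t : ℝ) ≤ L.b n t' := by exact_mod_cast L.b_mono n h
  unfold X
  nlinarith [mul_nonneg (sub_nonneg.2 h0) (sub_nonneg.2 hb),
    mul_nonneg (show (0 : ℝ) ≤ n + 1 - y by linarith) (sub_nonneg.2 ha)]

lemma X_strict (n : ℤ) {y : ℝ} (h0 : (n : ℝ) < y) (h1 : y < n + 1) {t t' : ℤ} (h : t < t') :
    L.X n t y < L.X n t' y := by
  have ha' := L.a_mono n h.le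
  have hb' := L.b_mono n h.le
  have s1 := L.sum_eq n t
  have s2 := L.sum_eq n t'
  have ha : (L.a n t : ℝ) ≤ L.a n t' := by exact_mod_cast ha'
  have hb : (L.b n t : ℝ) ≤ L.b n t' := by exact_mod_cast hb'
  unfold X
  rcases lt_or_eq_of_le ha' with h2 | h2
  · have h2' : (L.a n t : ℝ) < L.a n t' := by exact_mod_cast h2
    nlinarith [mul_nonneg (sub_nonneg.2 h0.le) (sub_nonneg.2 hb),
      mul_pos (show (0 : ℝ) < n + 1 - y by linarith) (sub_pos.2 h2')]
  · have h3 : L.b n t < L.b n t' := by omega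
    have h3' : (L.b n t : ℝ) < L.b n t' := by exact_mod_cast h3
    nlinarith [mul_pos (sub_pos.2 h0) (sub_pos.2 h3'),
      mul_nonneg (show (0 : ℝ) ≤ n + 1 - y by linarith) (sub_nonneg.2 ha)]

lemma X_ge (n t : ℤ) {y M : ℝ} (h0 : (n : ℝ) ≤ y) (h1 : y ≤ n + 1) (ha : M ≤ L.a n t)
    (hb : M ≤ L.b n t) : M ≤ L.X n t y := by
  unfold X
  nlinarith [mul_nonneg (sub_nonneg.2 h0) (sub_nonneg.2 hb),
    mul_nonneg (show (0 : ℝ) ≤ n + 1 - y by linarith) (sub_nonneg.2 ha)]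

lemma X_le (n t : ℤ) {y M : ℝ} (h0 : (n : ℝ) ≤ y) (h1 : y ≤ n + 1) (ha : L.a n t ≤ M)
    (hb : L.b n t ≤ M) : L.X n t y ≤ M := by
  unfold X
  nlinarith [mul_nonneg (sub_nonneg.2 h0) (sub_nonneg.2 hb),
    mul_nonneg (show (0 : ℝ) ≤ n + 1 - y by linarith) (sub_nonneg.2 ha)]

lemma exists_far_right (n M : ℤ) : ∃ t, M ≤ L.a n t ∧ M ≤ L.b n t := by
  obtain ⟨t1, h1⟩ := L.a_top n M
  obtain ⟨t2, h2⟩ := L.b_top n M
  exact ⟨max t1 t2, h1.trans (L.a_mono n (le_max_left _ _)),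
    h2.trans (L.b_mono n (le_max_right _ _))⟩

lemma exists_far_left (n M : ℤ) : ∃ t, L.a n t ≤ M ∧ L.b n t ≤ M := by
  obtain ⟨t1, h1⟩ := L.a_bot n M
  obtain ⟨t2, h2⟩ := L.b_bot n M
  exact ⟨min t1 t2, (L.a_mono n (min_le_left _ _)).trans h1,
    (L.b_mono n (min_le_right _ _)).trans h2⟩

lemma int_cases_real {n m : ℤ} (h0 : (n : ℝ) ≤ m) (h1 : (m : ℝ) ≤ n + 1) : m = n ∨ m = n + 1 := by
  have h0' : n ≤ m := by exact_mod_cast h0
  have h1' : m ≤ n + 1 := by exact_mod_cast h1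
  omega

/-- The layered map. -/
def map : PlaneMap where
  V := ℤ × ℤ
  G := L.graph
  pos := pos
  arc e := seg e.1
  pos_injective := pos_injective
  arc_spec u v h := ⟨Path.segment (pos u) (pos v),
    Path.segment_injective_of_ne (fun h' => h.ne (pos_injective h')), Path.range_segment _ _⟩
  arc_vertex e w hw := by
    obtain ⟨j, m⟩ := w
    rcases L.edge_cases e with ⟨i, n, he⟩ | ⟨n, t, he⟩
    · rw [he] at hw ⊢
      rw [mem_hseg] at hw
      simp only [pos, Int.cast_inj] at hw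
      obtain ⟨h1, h2, h3⟩ := hw
      subst h1
      rcases int_cases_real h2 h3 with h | h <;> simp [h]
    · rw [he] at hw ⊢
      rw [mem_cseg] at hw
      simp only [pos] at hw
      obtain ⟨h1, h2, h3⟩ := hw
      rcases int_cases_real h1 h2 with h | h
      · subst h
        rw [X_bot] at h3
        have : j = L.a m t := by exact_mod_cast h3
        simp [this]
      · subst h
        push_cast at h3
        rw [X_top] at h3
        have : j = L.b n t := by exact_mod_cast h3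
        simp [this]
  arc_inter e e' hne := by
    rintro ⟨x, y⟩ ⟨hp, hp'⟩
    have key : ∀ (n t m : ℤ), (x, y) ∈ seg s((L.a n t, n), (L.b n t, n + 1)) → y = m →
        (x, y) ∈ range pos := by
      intro n t m h hy
      rw [mem_cseg] at h
      simp only at h
      obtain ⟨h1, h2, h3⟩ := h
      rw [hy] at h1 h2
      rcases int_cases_real h1 h2 with h | h
      · subst h
        rw [hy, X_bot] at h3
        exact ⟨(L.a m t, m), by simp [pos, h3, hy]⟩
      · subst h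
        rw [hy] at h3
        push_cast at h3
        rw [X_top] at h3
        exact ⟨(L.b n t, n + 1), by simp [pos, h3, hy]⟩
    rcases L.edge_cases e with ⟨i, n, he⟩ | ⟨n, t, he⟩ <;>
      rcases L.edge_cases e' with ⟨j, m, he'⟩ | ⟨m, t', he'⟩
    · rw [he] at hp
      rw [he'] at hp'
      rw [mem_hseg] at hp hp'
      simp only at hp hp'
      obtain ⟨h1, h2, h3⟩ := hp
      obtain ⟨h4, h5, h6⟩ := hp'
      have hnm : n = m := by exact_mod_cast h1.symm.trans h4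
      subst hnm
      have hij : i ≠ j := by
        rintro rfl
        exact hne (Subtype.ext (he.trans he'.symm))
      rcases lt_or_gt_of_ne hij with h | h
      · have : (i : ℝ) + 1 ≤ j := by exact_mod_cast h
        exact ⟨(j, n), by simp only [pos, Prod.mk.injEq]; exact ⟨by linarith, h1.symm⟩⟩
      · have : (j : ℝ) + 1 ≤ i := by exact_mod_cast h
        exact ⟨(i, n), by simp only [pos, Prod.mk.injEq]; exact ⟨by linarith, h1.symm⟩⟩
    · rw [he] at hp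
      rw [he'] at hp'
      rw [mem_hseg] at hp
      exact key m t' n hp' hp.1
    · rw [he] at hp
      rw [he'] at hp'
      rw [mem_hseg] at hp'
      exact key n t m hp hp'.1
    · rw [he] at hp
      rw [he'] at hp'
      by_cases hy : ∃ k : ℤ, y = k
      · obtain ⟨k, hk⟩ := hy
        exact key n t k hp hk
      · exfalso
        push Not at hy
        rw [mem_cseg] at hp hp'
        simp only at hp hp'
        obtain ⟨h1, h2, h3⟩ := hp
        obtain ⟨h4, h5, h6⟩ := hp'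
        have h1' : (n : ℝ) < y := lt_of_le_of_ne h1 (hy n).symm
        have h2' : y < n + 1 := lt_of_le_of_ne h2 (by exact_mod_cast hy (n + 1))
        have h4' : (m : ℝ) < y := lt_of_le_of_ne h4 (hy m).symm
        have h5' : y < m + 1 := lt_of_le_of_ne h5 (by exact_mod_cast hy (m + 1))
        have hnm : n = m := by
          have e1 : n < m + 1 := by exact_mod_cast h1'.trans h5'
          have e2 : m < n + 1 := by exact_mod_cast h4'.trans h2'
          omega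
        subst hnm
        have htt : t ≠ t' := by
          rintro rfl
          exact hne (Subtype.ext (he.trans he'.symm))
        rcases lt_or_gt_of_ne htt with h | h
        · have := L.X_strict n h1' h2' h
          linarith
        · have := L.X_strict n h1' h2' h
          linarith

end Strips

end Pool.Agent.Lib.MP_864d8b_co
end

-- part Pool.Agent.Lib.MP_864d8b_co.Faces
section

/-!
Faces of a layered map.
-/

namespace Pool.Agent.Lib.MP_864d8b_co

open Set Filter Topology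

namespace Strips

variable (L : Strips)

def cell (n t : ℤ) : Set (ℝ × ℝ) :=
  {p | (n : ℝ) < p.2 ∧ p.2 < n + 1 ∧ L.X n t p.2 < p.1 ∧ p.1 < L.X n (t + 1) p.2}

def ccell (n t : ℤ) : Set (ℝ × ℝ) :=
  {p | (n : ℝ) ≤ p.2 ∧ p.2 ≤ n + 1 ∧ L.X n t p.2 ≤ p.1 ∧ p.1 ≤ L.X n (t + 1) p.2}

lemma continuous_X (n t : ℤ) : Continuous (fun p : ℝ × ℝ => L.X n t p.2) := by
  unfold X; fun_prop

lemma isOpen_cell (n t : ℤ) : IsOpen (L.cell n t) := by
  have h := L.continuous_X n t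
  have h' := L.continuous_X n (t + 1)
  refine (isOpen_lt continuous_const continuous_snd).inter
    ((isOpen_lt continuous_snd continuous_const).inter
      ((isOpen_lt h continuous_fst).inter (isOpen_lt continuous_fst h')))

lemma isClosed_ccell (n t : ℤ) : IsClosed (L.ccell n t) := by
  have h := L.continuous_X n t
  have h' := L.continuous_X n (t + 1)
  refine (isClosed_le continuous_const continuous_snd).inter
    ((isClosed_le continuous_snd continuous_const).inter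
      ((isClosed_le h continuous_fst).inter (isClosed_le continuous_fst h')))

lemma X_comb (n t : ℤ) (y z α β : ℝ) (h : α + β = 1) :
    L.X n t (α * y + β * z) = α * L.X n t y + β * L.X n t z := by
  have : β = 1 - α := by linarith
  subst this
  unfold X; ring

lemma comb_mem_cell (n t : ℤ) {p q : ℝ × ℝ} (hp : p ∈ L.ccell n t) (hq : q ∈ L.cell n t)
    {α β : ℝ} (hα : 0 ≤ α) (hβ : 0 < β) (h : α + β = 1) : α • p + β • q ∈ L.cell n t := by
  obtain ⟨p1, p2, p3, p4⟩ := hp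
  obtain ⟨q1, q2, q3, q4⟩ := hq
  have e1 : (α • p + β • q).1 = α * p.1 + β * q.1 := by simp
  have e2 : (α • p + β • q).2 = α * p.2 + β * q.2 := by simp
  have e3 : α * (n : ℝ) + β * n = n := by rw [← add_mul, h, one_mul]
  refine ⟨?_, ?_, ?_, ?_⟩
  · rw [e2]; nlinarith [mul_nonneg hα (sub_nonneg.2 p1), mul_pos hβ (sub_pos.2 q1)]
  · rw [e2]; nlinarith [mul_nonneg hα (sub_nonneg.2 p2), mul_pos hβ (sub_pos.2 q2)]
  · rw [e1, e2, L.X_comb n t _ _ _ _ h]
    nlinarith [mul_nonneg hα (sub_nonneg.2 p3), mul_pos hβ (sub_pos.2 q3)]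
  · rw [e1, e2, L.X_comb n (t + 1) _ _ _ _ h]
    nlinarith [mul_nonneg hα (sub_nonneg.2 p4), mul_pos hβ (sub_pos.2 q4)]

lemma cell_subset (n t : ℤ) : L.cell n t ⊆ L.ccell n t :=
  fun _ h => ⟨h.1.le, h.2.1.le, h.2.2.1.le, h.2.2.2.le⟩

lemma convex_cell (n t : ℤ) : Convex ℝ (L.cell n t) := by
  intro p hp q hq α β hα hβ h
  rcases hβ.eq_or_lt with h0 | h0
  · subst h0
    have : α = 1 := by linarith
    subst this
    simpa using hp
  · exact L.comb_mem_cell n t (L.cell_subset n t hp) hq hα h0 h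

lemma convex_ccell (n t : ℤ) : Convex ℝ (L.ccell n t) := by
  intro p hp q hq α β hα hβ h
  obtain ⟨p1, p2, p3, p4⟩ := hp
  obtain ⟨q1, q2, q3, q4⟩ := hq
  have e1 : (α • p + β • q).1 = α * p.1 + β * q.1 := by simp
  have e2 : (α • p + β • q).2 = α * p.2 + β * q.2 := by simp
  have e3 : α * (n : ℝ) + β * n = n := by rw [← add_mul, h, one_mul]
  refine ⟨?_, ?_, ?_, ?_⟩
  · rw [e2]; nlinarith [mul_nonneg hα (sub_nonneg.2 p1), mul_nonneg hβ (sub_nonneg.2 q1)]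
  · rw [e2]; nlinarith [mul_nonneg hα (sub_nonneg.2 p2), mul_nonneg hβ (sub_nonneg.2 q2)]
  · rw [e1, e2, L.X_comb n t _ _ _ _ h]
    nlinarith [mul_nonneg hα (sub_nonneg.2 p3), mul_nonneg hβ (sub_nonneg.2 q3)]
  · rw [e1, e2, L.X_comb n (t + 1) _ _ _ _ h]
    nlinarith [mul_nonneg hα (sub_nonneg.2 p4), mul_nonneg hβ (sub_nonneg.2 q4)]

lemma cell_nonempty (n t : ℤ) : (L.cell n t).Nonempty := by
  have h0 : (n : ℝ) < n + 1 / 2 := by linarith
  have h1 : (n : ℝ) + 1 / 2 < n + 1 := by linarith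
  have h := L.X_strict n h0 h1 (show t < t + 1 by omega)
  refine ⟨((L.X n t (n + 1 / 2) + L.X n (t + 1) (n + 1 / 2)) / 2, n + 1 / 2), h0, h1, ?_, ?_⟩
  · simp only; linarith
  · simp only; linarith

lemma closure_cell (n t : ℤ) : closure (L.cell n t) = L.ccell n t := by
  apply Subset.antisymm
  · exact closure_minimal (L.cell_subset n t) (L.isClosed_ccell n t)
  · intro p hp
    obtain ⟨q, hq⟩ := L.cell_nonempty n t
    have hc : Tendsto (fun β : ℝ => (1 - β) • p + β • q) (𝓝[>] 0) (𝓝 p) := by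
      have : Continuous (fun β : ℝ => (1 - β) • p + β • q) := by fun_prop
      have h2 := this.tendsto 0
      simp only [sub_zero, one_smul, zero_smul, add_zero] at h2
      exact h2.mono_left nhdsWithin_le_nhds
    refine mem_closure_of_tendsto hc ?_
    filter_upwards [Ioo_mem_nhdsGT (show (0 : ℝ) < 1 by norm_num)] with β hβ
    exact L.comb_mem_cell n t hp hq (by linarith [hβ.2]) hβ.1 (by ring)

lemma cell_unique {n t m s : ℤ} {p : ℝ × ℝ} (h : p ∈ L.cell n t) (h' : p ∈ L.cell m s) :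
    n = m ∧ t = s := by
  obtain ⟨h1, h2, h3, h4⟩ := h
  obtain ⟨h5, h6, h7, h8⟩ := h'
  have hnm : n = m := by
    have e1 : n < m + 1 := by exact_mod_cast h1.trans h6
    have e2 : m < n + 1 := by exact_mod_cast h5.trans h2
    omega
  subst hnm
  refine ⟨rfl, ?_⟩
  by_contra hts
  rcases lt_or_gt_of_ne hts with h | h
  · have := L.X_mono n h1.le h2.le (show t + 1 ≤ s by omega)
    linarith
  · have := L.X_mono n h1.le h2.le (show s + 1 ≤ t by omega)
    linarith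

/-- a monotone unbounded real sequence on `ℤ` brackets every real -/
lemma exists_bracket (f : ℤ → ℝ) (x : ℝ) (hm : Monotone f) (h1 : ∃ t, x < f t)
    (h2 : ∃ t, f t ≤ x) : ∃ t, f t ≤ x ∧ x < f (t + 1) := by
  obtain ⟨t1, ht1⟩ := h1
  obtain ⟨t, ht, hmax⟩ := Int.exists_greatest_of_bdd (P := fun t => f t ≤ x)
    ⟨t1, fun z hz => by
      by_contra hlt
      push Not at hlt
      have := hm hlt.le
      linarith⟩ h2
  refine ⟨t, ht, ?_⟩
  by_contra hle
  push Not at hle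
  have := hmax (t + 1) hle
  omega

lemma exists_bracket_X (n : ℤ) {y : ℝ} (h0 : (n : ℝ) ≤ y) (h1 : y ≤ n + 1) (x : ℝ) :
    ∃ t, L.X n t y ≤ x ∧ x < L.X n (t + 1) y := by
  apply exists_bracket (fun t => L.X n t y) x (fun _ _ h => L.X_mono n h0 h1 h)
  · obtain ⟨t, ha, hb⟩ := L.exists_far_right n (⌊x⌋ + 1)
    refine ⟨t, lt_of_lt_of_le (Int.lt_floor_add_one x) (L.X_ge n t h0 h1 ?_ ?_)⟩
    · exact_mod_cast ha
    · exact_mod_cast hb
  · obtain ⟨t, ha, hb⟩ := L.exists_far_left n ⌊x⌋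
    refine ⟨t, le_trans (L.X_le n t h0 h1 ?_ ?_) (Int.floor_le x)⟩
    · exact_mod_cast ha
    · exact_mod_cast hb

lemma mem_drawing (p : ℝ × ℝ) : p ∈ L.map.drawing ↔
    (∃ n : ℤ, p.2 = n) ∨ ∃ n t : ℤ, (n : ℝ) ≤ p.2 ∧ p.2 ≤ n + 1 ∧ p.1 = L.X n t p.2 := by
  constructor
  · rintro (⟨v, hv⟩ | hp)
    · exact Or.inl ⟨v.2, by rw [← hv]; rfl⟩
    · obtain ⟨e, he⟩ := mem_iUnion.1 hp
      change p ∈ seg e.1 at he
      rcases L.edge_cases e with ⟨i, n, h⟩ | ⟨n, t, h⟩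
      · rw [h, mem_hseg] at he
        exact Or.inl ⟨n, he.1⟩
      · rw [h, mem_cseg] at he
        exact Or.inr ⟨n, t, he⟩
  · rintro (⟨n, hn⟩ | ⟨n, t, h⟩)
    · refine Or.inr (mem_iUnion.2 ⟨⟨s((⌊p.1⌋, n), (⌊p.1⌋ + 1, n)), L.adj_h _ _⟩, ?_⟩)
      exact (mem_hseg _ _ p).2 ⟨hn, Int.floor_le _, (Int.lt_floor_add_one _).le⟩
    · refine Or.inr (mem_iUnion.2 ⟨⟨s((L.a n t, n), (L.b n t, n + 1)), L.adj_c _ _⟩, ?_⟩)
      exact (L.mem_cseg _ _ p).2 h

lemma not_mem_drawing (p : ℝ × ℝ) : p ∉ L.map.drawing ↔ ∃ n t, p ∈ L.cell n t := by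
  rw [mem_drawing]
  constructor
  · intro h
    push Not at h
    obtain ⟨h1, h2⟩ := h
    have e0 : (⌊p.2⌋ : ℝ) ≤ p.2 := Int.floor_le _
    have e1 : p.2 < ⌊p.2⌋ + 1 := Int.lt_floor_add_one _
    obtain ⟨t, ht1, ht2⟩ := L.exists_bracket_X ⌊p.2⌋ e0 e1.le p.1
    exact ⟨⌊p.2⌋, t, lt_of_le_of_ne e0 (h1 _).symm, e1,
      lt_of_le_of_ne ht1 (h2 _ t e0 e1.le).symm, ht2⟩
  · rintro ⟨n, t, h1, h2, h3, h4⟩ (⟨m, hm⟩ | ⟨m, s, h5, h6, h7⟩)
    · rw [hm] at h1 h2
      have e1 : n < m := by exact_mod_cast h1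
      have e2 : m < n + 1 := by exact_mod_cast h2
      omega
    · have hnm : n = m := by
        have e1 : n < m + 1 := by exact_mod_cast h1.trans_le h6
        have e2 : m < n + 1 := by exact_mod_cast h5.trans_lt h2
        omega
      subst hnm
      rcases le_or_gt s t with h | h
      · have := L.X_mono n h5 h6 h
        linarith
      · have := L.X_mono n h5 h6 (show t + 1 ≤ s by omega)
        linarith

lemma component_eq {n t : ℤ} {p : ℝ × ℝ} (hp : p ∈ L.cell n t) :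
    connectedComponentIn L.map.drawingᶜ p = L.cell n t := by
  have hsub : L.cell n t ⊆ L.map.drawingᶜ := fun q hq => (L.not_mem_drawing q).2 ⟨n, t, hq⟩
  apply Subset.antisymm
  · refine IsPreconnected.subset_left_of_subset_union
      (v := ⋃ q : {q : ℤ × ℤ // q ≠ (n, t)}, L.cell q.1.1 q.1.2) (L.isOpen_cell n t)
      (isOpen_iUnion fun q => L.isOpen_cell _ _) ?_ ?_ ?_ isPreconnected_connectedComponentIn
    · rw [Set.disjoint_left]
      intro q hq hq'
      obtain ⟨⟨⟨m, s⟩, hne⟩, h⟩ := mem_iUnion.1 hq'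
      obtain ⟨e1, e2⟩ := L.cell_unique hq h
      exact hne (Prod.ext e1.symm e2.symm)
    · intro q hq
      obtain ⟨m, s, h⟩ := (L.not_mem_drawing q).1 (connectedComponentIn_subset _ _ hq)
      by_cases hne : (m, s) = (n, t)
      · obtain ⟨rfl, rfl⟩ := Prod.mk.inj hne
        exact Or.inl h
      · exact Or.inr (mem_iUnion.2 ⟨⟨(m, s), hne⟩, h⟩)
    · exact ⟨p, mem_connectedComponentIn (hsub hp), hp⟩
  · exact (L.convex_cell n t).isPreconnected.subset_connectedComponentIn hp hsub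

/-- The face number `t` of strip `n`. -/
def face (q : ℤ × ℤ) : L.map.Face :=
  ⟨L.cell q.1 q.2, (L.cell_nonempty q.1 q.2).some,
    (L.not_mem_drawing _).2 ⟨q.1, q.2, (L.cell_nonempty q.1 q.2).some_mem⟩,
    (L.component_eq (L.cell_nonempty q.1 q.2).some_mem).symm⟩

lemma face_injective : Function.Injective L.face := by
  rintro ⟨n, t⟩ ⟨m, s⟩ h
  have h' : L.cell n t = L.cell m s := congrArg Subtype.val h
  obtain ⟨p, hp⟩ := L.cell_nonempty n t
  obtain ⟨e1, e2⟩ := L.cell_unique hp (h' ▸ hp)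
  exact Prod.ext e1 e2

lemma face_surjective : Function.Surjective L.face := by
  rintro ⟨F, p, hp, hF⟩
  obtain ⟨n, t, h⟩ := (L.not_mem_drawing p).1 hp
  exact ⟨(n, t), Subtype.ext ((L.component_eq h).symm.trans hF.symm)⟩

/-- combinatorial incidence -/
def inc (v q : ℤ × ℤ) : Prop :=
  (v.2 = q.1 ∧ L.a q.1 q.2 ≤ v.1 ∧ v.1 ≤ L.a q.1 (q.2 + 1)) ∨
  (v.2 = q.1 + 1 ∧ L.b q.1 q.2 ≤ v.1 ∧ v.1 ≤ L.b q.1 (q.2 + 1))

lemma pos_mem_ccell (v q : ℤ × ℤ) : pos v ∈ L.ccell q.1 q.2 ↔ L.inc v q := by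
  obtain ⟨i, m⟩ := v
  obtain ⟨n, t⟩ := q
  simp only [ccell, pos, inc, mem_ofPred_eq]
  constructor
  · rintro ⟨h1, h2, h3, h4⟩
    rcases int_cases_real h1 h2 with h | h
    · subst h
      rw [X_bot] at h3 h4
      exact Or.inl ⟨rfl, by exact_mod_cast h3, by exact_mod_cast h4⟩
    · subst h
      push_cast at h3 h4
      rw [X_top] at h3 h4
      exact Or.inr ⟨rfl, by exact_mod_cast h3, by exact_mod_cast h4⟩
  · rintro (⟨h, h3, h4⟩ | ⟨h, h3, h4⟩)
    · subst h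
      rw [X_bot, X_bot]
      exact ⟨le_rfl, by linarith, by exact_mod_cast h3, by exact_mod_cast h4⟩
    · subst h
      push_cast
      rw [X_top, X_top]
      exact ⟨by linarith, le_rfl, by exact_mod_cast h3, by exact_mod_cast h4⟩

lemma vinc_iff (v q : ℤ × ℤ) : L.map.VInc v (L.face q) ↔ L.inc v q := by
  rw [← pos_mem_ccell, ← closure_cell]; rfl

lemma einc_iff (u v : ℤ × ℤ) (h : L.graph.Adj u v) (q : ℤ × ℤ) :
    L.map.EInc ⟨s(u, v), h⟩ (L.face q) ↔ L.inc u q ∧ L.inc v q := by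
  rw [← pos_mem_ccell, ← pos_mem_ccell]
  change segment ℝ (pos u) (pos v) ⊆ closure (L.cell q.1 q.2) ↔ _
  rw [closure_cell]
  constructor
  · intro h
    exact ⟨h (left_mem_segment _ _ _), h (right_mem_segment _ _ _)⟩
  · rintro ⟨h1, h2⟩
    exact (L.convex_ccell _ _).segment_subset h1 h2

end Strips

end Pool.Agent.Lib.MP_864d8b_co
end

-- part Pool.Agent.Lib.MP_864d8b_co.Tess
section

/-!
A layered map is a tessellation.
-/

namespace Pool.Agent.Lib.MP_864d8b_co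

open Set Filter Topology

namespace Strips

variable (L : Strips)

lemma finite_a (n i : ℤ) : {t | L.a n t = i}.Finite := by
  obtain ⟨t1, h1⟩ := L.a_top n (i + 1)
  obtain ⟨t2, h2⟩ := L.a_bot n (i - 1)
  refine (Set.finite_Icc t2 t1).subset ?_
  intro t ht
  simp only [mem_ofPred_eq] at ht
  constructor
  · by_contra h
    have := L.a_mono n (show t ≤ t2 by omega)
    omega
  · by_contra h
    have := L.a_mono n (show t1 ≤ t by omega)
    omega

lemma finite_b (n i : ℤ) : {t | L.b n t = i}.Finite := by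
  obtain ⟨t1, h1⟩ := L.b_top n (i + 1)
  obtain ⟨t2, h2⟩ := L.b_bot n (i - 1)
  refine (Set.finite_Icc t2 t1).subset ?_
  intro t ht
  simp only [mem_ofPred_eq] at ht
  constructor
  · by_contra h
    have := L.b_mono n (show t ≤ t2 by omega)
    omega
  · by_contra h
    have := L.b_mono n (show t1 ≤ t by omega)
    omega

lemma neighborSet_eq (i n : ℤ) : L.graph.neighborSet (i, n) =
    ({(i - 1, n), (i + 1, n)} ∪ (fun t => (L.b n t, n + 1)) '' {t | L.a n t = i}) ∪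
      (fun t => (L.a (n - 1) t, n - 1)) '' {t | L.b (n - 1) t = i} := by
  ext ⟨j, m⟩
  simp only [SimpleGraph.mem_neighborSet, graph_adj, adj, mem_union, mem_insert_iff,
    mem_singleton_iff, Prod.mk.injEq, mem_image, mem_ofPred_eq]
  constructor
  · rintro (⟨h1, h2 | h2⟩ | ⟨h1, t, h2, h3⟩ | ⟨h1, t, h2, h3⟩)
    · exact Or.inl (Or.inl (Or.inr ⟨h2, h1⟩))
    · exact Or.inl (Or.inl (Or.inl ⟨by omega, h1⟩))
    · exact Or.inl (Or.inr ⟨t, h2, h3, h1.symm⟩)
    · have : m = n - 1 := by omega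
      subst this
      exact Or.inr ⟨t, h3, h2, rfl⟩
  · rintro (((⟨h1, h2⟩ | ⟨h1, h2⟩) | ⟨t, h1, h2, h3⟩) | ⟨t, h1, h2, h3⟩)
    · exact Or.inl ⟨h2, Or.inr (by omega)⟩
    · exact Or.inl ⟨h2, Or.inl h1⟩
    · exact Or.inr (Or.inl ⟨h3.symm, t, h1, h2⟩)
    · subst h3
      exact Or.inr (Or.inr ⟨by omega, t, h2, h1⟩)

lemma neighborSet_finite (v : ℤ × ℤ) : (L.graph.neighborSet v).Finite := by
  obtain ⟨i, n⟩ := v
  rw [neighborSet_eq]
  exact ((Set.toFinite _).union ((L.finite_a n i).image _)).union ((L.finite_b _ i).image _)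

lemma valence_eq (i n : ℤ) : (L.graph.neighborSet (i, n)).ncard =
    2 + {t | L.a n t = i}.ncard + {t | L.b (n - 1) t = i}.ncard := by
  rw [neighborSet_eq,
    Set.ncard_union_eq _ ((Set.toFinite _).union ((L.finite_a n i).image _))
      ((L.finite_b _ i).image _),
    Set.ncard_union_eq _ (Set.toFinite _) ((L.finite_a n i).image _), Set.InjOn.ncard_image,
    Set.InjOn.ncard_image, Set.ncard_pair]
  · intro h
    have := (Prod.mk.inj h).1
    omega
  · intro t ht s hs h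
    simp only [mem_ofPred_eq] at ht hs
    have := (Prod.mk.inj h).1
    have e1 := L.sum_eq (n - 1) t
    have e2 := L.sum_eq (n - 1) s
    omega
  · intro t ht s hs h
    simp only [mem_ofPred_eq] at ht hs
    have := (Prod.mk.inj h).1
    have e1 := L.sum_eq n t
    have e2 := L.sum_eq n s
    omega
  · rw [Set.disjoint_left]
    rintro ⟨j, m⟩ h ⟨t, _, h'⟩
    have := (Prod.mk.inj h').2
    rcases h with h | h <;> have := (Prod.mk.inj h).2 <;> omega
  · rw [Set.disjoint_left]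
    rintro ⟨j, m⟩ h ⟨t, _, h'⟩
    have := (Prod.mk.inj h').2
    rcases h with (h | h) | ⟨s, _, h⟩ <;> have := (Prod.mk.inj h).2 <;> omega

lemma finite_inc (q : ℤ × ℤ) : {v | L.inc v q}.Finite := by
  refine (((Set.finite_Icc (L.a q.1 q.2) (L.a q.1 (q.2 + 1))).prod (Set.finite_singleton q.1)).union
    ((Set.finite_Icc (L.b q.1 q.2) (L.b q.1 (q.2 + 1))).prod
      (Set.finite_singleton (q.1 + 1)))).subset ?_
  rintro v (⟨h1, h2, h3⟩ | ⟨h1, h2, h3⟩)
  · exact Or.inl ⟨⟨h2, h3⟩, h1⟩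
  · exact Or.inr ⟨⟨h2, h3⟩, h1⟩

lemma finite_einc (q : ℤ × ℤ) : {e | L.map.EInc e (L.face q)}.Finite := by
  have hf := ((L.finite_inc q).prod (L.finite_inc q)).image (fun p => s(p.1, p.2))
  refine Set.Finite.of_finite_image (f := Subtype.val) (hf.subset ?_)
    Subtype.val_injective.injOn
  rintro _ ⟨⟨e, he⟩, h, rfl⟩
  induction e using Sym2.ind with
  | h u v =>
    have := (L.einc_iff u v he q).1 h
    exact ⟨(u, v), this, rfl⟩

lemma exists_inc_h (i n : ℤ) : ∃ q, L.inc (i, n) q ∧ L.inc (i + 1, n) q := by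
  obtain ⟨t1, h1⟩ := L.a_top n (i + 1)
  obtain ⟨t2, h2⟩ := L.a_bot n i
  obtain ⟨t, ht, ht'⟩ := exists_bracket (fun t => (L.a n t : ℝ)) i
    (fun _ _ h => Int.cast_le.2 (L.a_mono n h))
    ⟨t1, by exact_mod_cast (show i < L.a n t1 by omega)⟩ ⟨t2, by exact_mod_cast h2⟩
  have e1 : L.a n t ≤ i := by exact_mod_cast ht
  have e2 : i < L.a n (t + 1) := by exact_mod_cast ht'
  exact ⟨(n, t), Or.inl ⟨rfl, e1, e2.le⟩, Or.inl ⟨rfl, by simp only; omega, e2⟩⟩

lemma exists_einc (e : L.graph.edgeSet) : ∃ q, L.map.EInc e (L.face q) := by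
  obtain ⟨e, he⟩ := e
  rcases L.edge_cases ⟨e, he⟩ with ⟨i, n, h⟩ | ⟨n, t, h⟩
  · simp only at h
    subst h
    obtain ⟨q, hq⟩ := L.exists_inc_h i n
    exact ⟨q, (L.einc_iff _ _ he q).2 hq⟩
  · simp only at h
    subst h
    refine ⟨(n, t), (L.einc_iff _ _ he _).2 ⟨Or.inl ⟨rfl, le_rfl, ?_⟩, Or.inr ⟨rfl, le_rfl, ?_⟩⟩⟩
    · exact L.a_mono n (show t ≤ t + 1 by omega)
    · exact L.b_mono n (show t ≤ t + 1 by omega)

lemma finite_ccell_box (x y : ℝ) :
    {q : ℤ × ℤ | (L.ccell q.1 q.2 ∩ (Ioo (x - 1) (x + 1) ×ˢ Ioo (y - 1) (y + 1))).Nonempty}.Finite := by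
  have h1 : ∀ n : ℤ, {t : ℤ | ∃ p ∈ L.ccell n t, p.1 ∈ Ioo (x - 1) (x + 1)}.Finite := by
    intro n
    obtain ⟨t1, ha1, hb1⟩ := L.exists_far_right n (⌊x⌋ + 2)
    obtain ⟨t2, ha2, hb2⟩ := L.exists_far_left n (⌊x⌋ - 1)
    refine (Set.finite_Icc t2 t1).subset ?_
    rintro t ⟨p, ⟨p1, p2, p3, p4⟩, p5, p6⟩
    have f1 := Int.floor_le x
    have f2 := Int.lt_floor_add_one x
    constructor
    · by_contra h
      have e1 := L.X_mono n p1 p2 (show t + 1 ≤ t2 by omega)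
      have e2 : L.X n t2 p.2 ≤ ((⌊x⌋ - 1 : ℤ) : ℝ) :=
        L.X_le n t2 p1 p2 (by exact_mod_cast ha2) (by exact_mod_cast hb2)
      push_cast at e2
      linarith
    · by_contra h
      have e1 := L.X_mono n p1 p2 (show t1 ≤ t by omega)
      have e2 : ((⌊x⌋ + 2 : ℤ) : ℝ) ≤ L.X n t1 p.2 :=
        L.X_ge n t1 p1 p2 (by exact_mod_cast ha1) (by exact_mod_cast hb1)
      push_cast at e2
      linarith
  refine ((Set.finite_Icc (⌊y⌋ - 2) (⌊y⌋ + 2)).biUnion
    (t := fun n => (fun t => (n, t)) '' {t : ℤ | ∃ p ∈ L.ccell n t, p.1 ∈ Ioo (x - 1) (x + 1)})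
    (fun n _ => (h1 n).image _)).subset ?_
  rintro ⟨n, t⟩ ⟨p, hp, hx, hy⟩
  simp only [mem_iUnion, mem_image, exists_prop]
  refine ⟨n, ?_, t, ⟨p, hp, hx⟩, rfl⟩
  obtain ⟨p1, p2, -, -⟩ := hp
  obtain ⟨h3, h4⟩ := hy
  have f1 := Int.floor_le y
  have f2 := Int.lt_floor_add_one y
  simp only at p1 p2
  constructor
  · have : ((⌊y⌋ - 2 : ℤ) : ℝ) ≤ n := by push_cast; linarith
    exact_mod_cast this
  · have : (n : ℝ) ≤ ((⌊y⌋ + 2 : ℤ) : ℝ) := by push_cast; linarith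
    exact_mod_cast this

lemma no_acc (p : ℝ × ℝ) : ∃ N ∈ 𝓝 p, {v | L.map.pos v ∈ N}.Finite ∧
    {e | (L.map.arc e ∩ N).Nonempty}.Finite ∧ {f : L.map.Face | (f.1 ∩ N).Nonempty}.Finite := by
  have hf := L.finite_ccell_box p.1 p.2
  refine ⟨Ioo (p.1 - 1) (p.1 + 1) ×ˢ Ioo (p.2 - 1) (p.2 + 1),
    prod_mem_nhds (Ioo_mem_nhds (by linarith) (by linarith))
      (Ioo_mem_nhds (by linarith) (by linarith)), ?_, ?_, ?_⟩
  · refine (hf.biUnion (t := fun q => {v | L.inc v q}) (fun q _ => L.finite_inc q)).subset ?_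
    rintro ⟨i, n⟩ hv
    obtain ⟨q, hq, -⟩ := L.exists_inc_h i n
    simp only [mem_iUnion, exists_prop]
    exact ⟨q, ⟨pos (i, n), (L.pos_mem_ccell _ q).2 hq, hv⟩, hq⟩
  · refine (hf.biUnion (t := fun q => {e | L.map.EInc e (L.face q)})
      (fun q _ => L.finite_einc q)).subset ?_
    rintro e ⟨z, hz, hz'⟩
    obtain ⟨q, hq⟩ := L.exists_einc e
    simp only [mem_iUnion, exists_prop]
    refine ⟨q, ⟨z, ?_, hz'⟩, hq⟩
    rw [← closure_cell]
    exact hq hz
  · refine (hf.image L.face).subset ?_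
    rintro f ⟨z, hz, hz'⟩
    obtain ⟨q, rfl⟩ := L.face_surjective f
    exact ⟨q, ⟨z, L.cell_subset _ _ hz, hz'⟩, rfl⟩

/-- reachability avoiding `K` -/
def R (K : Set (ℤ × ℤ)) (u v : ℤ × ℤ) : Prop :=
  ∃ (hu : u ∉ K) (hv : v ∉ K), (L.graph.induce Kᶜ).Reachable ⟨u, hu⟩ ⟨v, hv⟩

variable {L}

lemma R.refl {K : Set (ℤ × ℤ)} {u : ℤ × ℤ} (hu : u ∉ K) : L.R K u u :=
  ⟨hu, hu, SimpleGraph.Reachable.refl _⟩

lemma R.symm {K : Set (ℤ × ℤ)} {u v : ℤ × ℤ} (h : L.R K u v) : L.R K v u := by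
  obtain ⟨hu, hv, h⟩ := h
  exact ⟨hv, hu, h.symm⟩

lemma R.trans {K : Set (ℤ × ℤ)} {u v w : ℤ × ℤ} (h : L.R K u v) (h' : L.R K v w) :
    L.R K u w := by
  obtain ⟨hu, hv, h⟩ := h
  obtain ⟨_, hw, h'⟩ := h'
  exact ⟨hu, hw, h.trans h'⟩

lemma R.of_adj {K : Set (ℤ × ℤ)} {u v : ℤ × ℤ} (hu : u ∉ K) (hv : v ∉ K) (h : L.graph.Adj u v) :
    L.R K u v :=
  ⟨hu, hv, SimpleGraph.Adj.reachable (by simpa using h)⟩

lemma R.horiz_le {K : Set (ℤ × ℤ)} (n : ℤ) {i j : ℤ} (hij : i ≤ j)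
    (h : ∀ l, i ≤ l → l ≤ j → (l, n) ∉ K) : L.R K (i, n) (j, n) := by
  induction j, hij using Int.leInduction with
  | base => exact R.refl (h i le_rfl le_rfl)
  | succ j hij ih =>
    exact (ih (fun l h1 h2 => h l h1 (by omega))).trans
      (R.of_adj (h j hij (by omega)) (h (j + 1) (by omega) le_rfl) (L.adj_h j n))

lemma R.horiz {K : Set (ℤ × ℤ)} (n : ℤ) (i j : ℤ)
    (h : ∀ l, min i j ≤ l → l ≤ max i j → (l, n) ∉ K) : L.R K (i, n) (j, n) := by
  rcases le_total i j with hij | hij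
  · exact R.horiz_le n hij (fun l h1 h2 => h l (by omega) (by omega))
  · exact (R.horiz_le n hij (fun l h1 h2 => h l (by omega) (by omega))).symm

section box

variable {K : Set (ℤ × ℤ)} {M : ℤ} (hM : ∀ v ∈ K, |v.1| < M ∧ |v.2| < M)
include hM

lemma R.right (i n : ℤ) (hi : M ≤ i) : L.R K (i, n) (M, M) := by
  have hK : ∀ l m, M ≤ l → (l, m) ∉ K := fun l m h h' => by
    have := (hM _ h').1
    simp only [abs_lt] at this
    omega
  have step : ∀ m, L.R K (M, m) (M, m + 1) := by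
    intro m
    obtain ⟨t, ha, hb⟩ := L.exists_far_right m M
    exact ((R.horiz m M _ (fun l h1 _ => hK l m (by omega))).trans
      (R.of_adj (hK _ _ ha) (hK _ _ hb) (L.adj_c m t))).trans
      (R.horiz (m + 1) _ M (fun l h1 _ => hK l _ (by omega)))
  have all : ∀ m, L.R K (M, m) (M, M) := by
    intro m
    induction m using Int.inductionOn' (b := M) with
    | zero => exact R.refl (hK _ _ le_rfl)
    | succ k _ ih => exact (step k).symm.trans ih
    | pred k _ ih =>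
      have := step (k - 1)
      rw [sub_add_cancel] at this
      exact this.trans ih
  exact (R.horiz n i M (fun l h1 _ => hK l n (by omega))).trans (all n)

lemma R.left (i n : ℤ) (hi : i ≤ -M) : L.R K (i, n) (M, M) := by
  have hK : ∀ l m, l ≤ -M → (l, m) ∉ K := fun l m h h' => by
    have := (hM _ h').1
    simp only [abs_lt] at this
    omega
  have step : ∀ m, L.R K (-M, m) (-M, m + 1) := by
    intro m
    obtain ⟨t, ha, hb⟩ := L.exists_far_left m (-M)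
    exact ((R.horiz m (-M) _ (fun l _ h1 => hK l m (by omega))).trans
      (R.of_adj (hK _ _ ha) (hK _ _ hb) (L.adj_c m t))).trans
      (R.horiz (m + 1) _ (-M) (fun l _ h1 => hK l _ (by omega)))
  have all : ∀ m, L.R K (-M, m) (-M, M) := by
    intro m
    induction m using Int.inductionOn' (b := M) with
    | zero => exact R.refl (hK _ _ le_rfl)
    | succ k _ ih => exact (step k).symm.trans ih
    | pred k _ ih =>
      have := step (k - 1)
      rw [sub_add_cancel] at this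
      exact this.trans ih
  refine ((R.horiz n i (-M) (fun l _ h1 => hK l n (by omega))).trans (all n)).trans
    (R.horiz M _ _ (fun l _ _ h' => ?_))
  have := (hM _ h').2
  simp only [abs_lt] at this
  omega

lemma R.free_layer (i n : ℤ) (h : ∀ l, (l, n) ∉ K) : L.R K (i, n) (M, M) :=
  (R.horiz n i M (fun l _ _ => h l)).trans (R.right hM M n le_rfl)

lemma R.outside (v : ℤ × ℤ) (hv : ¬ (|v.1| < M ∧ |v.2| < M)) : L.R K v (M, M) := by
  obtain ⟨i, n⟩ := v
  simp only [abs_lt] at hv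
  by_cases h1 : M ≤ i
  · exact R.right hM i n h1
  by_cases h2 : i ≤ -M
  · exact R.left hM i n h2
  refine R.free_layer hM i n (fun l h' => ?_)
  have := (hM _ h').2
  simp only [abs_lt] at this
  omega

end box

lemma exists_box (K : Finset (ℤ × ℤ)) : ∃ M : ℤ, ∀ v ∈ (K : Set (ℤ × ℤ)), |v.1| < M ∧ |v.2| < M := by
  obtain ⟨M, hM⟩ := (K.finite_toSet.image (fun v => |v.1| + |v.2|)).bddAbove
  refine ⟨M + 1, fun v hv => ?_⟩
  have := hM ⟨v, hv, rfl⟩
  simp only at this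
  have h1 := abs_nonneg v.1
  have h2 := abs_nonneg v.2
  constructor <;> omega

variable (L)

lemma three_connected (S : Finset (ℤ × ℤ)) (hS : S.card ≤ 2) :
    (L.graph.induce (↑S : Set (ℤ × ℤ))ᶜ).Connected := by
  obtain ⟨M, hM⟩ := exists_box S
  have key : ∀ v, v ∉ (S : Set (ℤ × ℤ)) → L.R S v (M, M) := by
    rintro ⟨i, n⟩ hv
    by_cases h1 : ∀ l, i ≤ l → (l, n) ∉ (S : Set (ℤ × ℤ))
    · exact (R.horiz n i (max i M) (fun l h _ => h1 l (by omega))).trans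
        (R.right hM _ n (le_max_right _ _))
    by_cases h2 : ∀ l, l ≤ i → (l, n) ∉ (S : Set (ℤ × ℤ))
    · exact (R.horiz n i (min i (-M)) (fun l _ h => h2 l (by omega))).trans
        (R.left hM _ n (min_le_right _ _))
    push Not at h1 h2
    obtain ⟨l1, e1, m1⟩ := h1
    obtain ⟨l2, e2, m2⟩ := h2
    have hne : l1 ≠ l2 := by
      rintro rfl
      have : l1 = i := by omega
      subst this
      exact hv m1
    have hfree : ∀ m, m ≠ n → ∀ l, (l, m) ∉ (S : Set (ℤ × ℤ)) := by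
      intro m hm l h
      have hsub : ({(l1, n), (l2, n), (l, m)} : Finset (ℤ × ℤ)) ⊆ S := by
        intro z hz
        simp only [Finset.mem_insert, Finset.mem_singleton] at hz
        rcases hz with rfl | rfl | rfl
        · exact m1
        · exact m2
        · exact h
      have hc := Finset.card_le_card hsub
      rw [Finset.card_eq_three.2 ⟨_, _, _, by simp [hne], by simp [hm.symm], by simp [hm.symm],
        rfl⟩] at hc
      omega
    rcases L.cross i n with ⟨t, ht⟩ | ⟨t, ht⟩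
    · subst ht
      exact (R.of_adj hv (hfree _ (by omega) _) (L.adj_c n t)).trans
        (R.free_layer hM _ _ (hfree _ (by omega)))
    · have ha := L.adj_c (n - 1) t
      rw [ht, sub_add_cancel] at ha
      exact (R.of_adj hv (hfree _ (by omega) _) ha.symm).trans
        (R.free_layer hM _ _ (hfree _ (by omega)))
  have hMM : (M, M) ∉ (S : Set (ℤ × ℤ)) := fun h => by
    have := (hM _ h).1
    simp only [abs_lt] at this
    omega
  have : Nonempty ((↑S : Set (ℤ × ℤ))ᶜ : Set (ℤ × ℤ)) := ⟨⟨(M, M), hMM⟩⟩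
  refine ⟨fun u v => ?_⟩
  obtain ⟨_, _, h⟩ := (key u.1 u.2).trans (key v.1 v.2).symm
  exact h

lemma one_ended (K : Finset (ℤ × ℤ)) :
    ∃! C : L.graph.ComponentCompl (↑K : Set (ℤ × ℤ)), C.supp.Infinite := by
  obtain ⟨M, hM⟩ := exists_box K
  have hMM : (M, M) ∉ (K : Set (ℤ × ℤ)) := fun h => by
    have := (hM _ h).1
    simp only [abs_lt] at this
    omega
  have key : ∀ v, ¬ (|v.1| < M ∧ |v.2| < M) → v ∈ (L.graph.componentComplMk hMM).supp := by
    intro v hv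
    obtain ⟨h1, h2, h⟩ := R.outside (L := L) hM v hv
    exact ⟨h1, SimpleGraph.ConnectedComponent.sound h⟩
  refine ⟨L.graph.componentComplMk hMM, ?_, ?_⟩
  · refine Set.infinite_of_injective_forall_mem (f := fun i : ℤ => (i, M)) ?_ ?_
    · intro i j h
      exact (Prod.mk.inj h).1
    · intro i
      refine key _ ?_
      simp only [abs_lt]
      omega
  · intro C hC
    have hfin : {v : ℤ × ℤ | |v.1| < M ∧ |v.2| < M}.Finite := by
      refine ((Set.finite_Icc (-M) M).prod (Set.finite_Icc (-M) M)).subset ?_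
      rintro v ⟨h1, h2⟩
      simp only [abs_lt] at h1 h2
      exact ⟨⟨by omega, by omega⟩, ⟨by omega, by omega⟩⟩
    obtain ⟨v, hv, hv'⟩ := hC.exists_notMem_finite hfin
    obtain ⟨h1, e1⟩ := hv
    obtain ⟨h2, e2⟩ := key v hv'
    exact e1.symm.trans e2

theorem isTessellation : L.map.IsTessellation where
  infinite := inferInstanceAs (Infinite (ℤ × ℤ))
  three_connected := L.three_connected
  locally_finite := L.neighborSet_finite
  face_finite f := by
    obtain ⟨q, rfl⟩ := L.face_surjective f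
    exact L.finite_einc q
  one_ended := L.one_ended
  no_accumulation := L.no_acc

end Strips

end Pool.Agent.Lib.MP_864d8b_co
end

-- part Pool.Agent.Lib.MP_864d8b_co.Quad
section

/-!
Quadrilateral faces, valence sequences and coronas of a layered map.
-/

namespace Pool.Agent.Lib.MP_864d8b_co

open Set Filter Topology

/-- equality of 4-tuples up to rotation and reversal -/
def Dih (p0 p1 p2 p3 s0 s1 s2 s3 : ℕ) : Prop :=
  (p0 = s0 ∧ p1 = s1 ∧ p2 = s2 ∧ p3 = s3) ∨ (p1 = s0 ∧ p2 = s1 ∧ p3 = s2 ∧ p0 = s3) ∨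
  (p2 = s0 ∧ p3 = s1 ∧ p0 = s2 ∧ p1 = s3) ∨ (p3 = s0 ∧ p0 = s1 ∧ p1 = s2 ∧ p2 = s3) ∨
  (p3 = s0 ∧ p2 = s1 ∧ p1 = s2 ∧ p0 = s3) ∨ (p2 = s0 ∧ p1 = s1 ∧ p0 = s2 ∧ p3 = s3) ∨
  (p1 = s0 ∧ p0 = s1 ∧ p3 = s2 ∧ p2 = s3) ∨ (p0 = s0 ∧ p3 = s1 ∧ p2 = s2 ∧ p1 = s3)

instance (p0 p1 p2 p3 s0 s1 s2 s3 : ℕ) : Decidable (Dih p0 p1 p2 p3 s0 s1 s2 s3) := by
  unfold Dih; infer_instance

namespace Strips

variable (L : Strips)

noncomputable def val (v : ℤ × ℤ) : ℕ := (L.graph.neighborSet v).ncard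

structure Quad (q v0 v1 v2 v3 : ℤ × ℤ) : Prop where
  a01 : L.graph.Adj v0 v1
  a12 : L.graph.Adj v1 v2
  a23 : L.graph.Adj v2 v3
  a30 : L.graph.Adj v3 v0
  n02 : v0 ≠ v2
  n13 : v1 ≠ v3
  c02 : ¬ L.graph.Adj v0 v2
  c13 : ¬ L.graph.Adj v1 v3
  inc : ∀ v, L.inc v q ↔ v = v0 ∨ v = v1 ∨ v = v2 ∨ v = v3

def FaceOK (q : ℤ × ℤ) (σ : List ℕ) : Prop :=
  ∃ c : Fin σ.length → L.map.V, Function.Injective c ∧
    (∀ i, L.map.G.Adj (c i) (c (finRotate σ.length i))) ∧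
    (∀ v, L.map.VInc v (L.face q) ↔ ∃ i, v = c i) ∧
    (∀ e : L.map.G.edgeSet, L.map.EInc e (L.face q) ↔
      ∃ i, (e : Sym2 L.map.V) = s(c i, c (finRotate σ.length i))) ∧
    ∀ i, (L.map.G.neighborSet (c i)).ncard = σ.get i

variable {L}

lemma Quad.rot {q v0 v1 v2 v3 : ℤ × ℤ} (h : L.Quad q v0 v1 v2 v3) : L.Quad q v1 v2 v3 v0 where
  a01 := h.a12
  a12 := h.a23
  a23 := h.a30
  a30 := h.a01
  n02 := h.n13
  n13 := h.n02.symm
  c02 := h.c13
  c13 := fun h' => h.c02 h'.symm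
  inc v := by rw [h.inc]; tauto

lemma Quad.rev {q v0 v1 v2 v3 : ℤ × ℤ} (h : L.Quad q v0 v1 v2 v3) : L.Quad q v3 v2 v1 v0 where
  a01 := h.a23.symm
  a12 := h.a12.symm
  a23 := h.a01.symm
  a30 := h.a30.symm
  n02 := h.n13.symm
  n13 := h.n02.symm
  c02 := fun h' => h.c13 h'.symm
  c13 := fun h' => h.c02 h'.symm
  inc v := by rw [h.inc]; tauto

lemma Quad.base {q v0 v1 v2 v3 : ℤ × ℤ} (h : L.Quad q v0 v1 v2 v3) :
    L.FaceOK q [L.val v0, L.val v1, L.val v2, L.val v3] := by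
  have r0 : finRotate 4 0 = 1 := by decide
  have r1 : finRotate 4 1 = 2 := by decide
  have r2 : finRotate 4 2 = 3 := by decide
  have r3 : finRotate 4 3 = 0 := by decide
  let c : Fin 4 → ℤ × ℤ := ![v0, v1, v2, v3]
  have c0 : c 0 = v0 := rfl
  have c1 : c 1 = v1 := rfl
  have c2 : c 2 = v2 := rfl
  have c3 : c 3 = v3 := rfl
  have n01 := h.a01.ne
  have n12 := h.a12.ne
  have n23 := h.a23.ne
  have n30 := h.a30.ne
  have n02 := h.n02
  have n13 := h.n13
  have hinj : Function.Injective c := by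
    intro i j hij
    fin_cases i <;> fin_cases j <;> simp_all [c]
  have hadj : ∀ i : Fin 4, L.graph.Adj (c i) (c (finRotate 4 i)) := by
    rw [Fin.forall_fin_succ, Fin.forall_fin_succ, Fin.forall_fin_succ, Fin.forall_fin_one]
    exact ⟨h.a01, h.a12, h.a23, h.a30⟩
  have hv : ∀ v, L.inc v q ↔ ∃ i : Fin 4, v = c i := by
    intro v
    rw [h.inc]
    constructor
    · rintro (h | h | h | h)
      exacts [⟨0, h⟩, ⟨1, h⟩, ⟨2, h⟩, ⟨3, h⟩]
    · rintro ⟨i, hi⟩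
      fin_cases i
      exacts [Or.inl hi, Or.inr (Or.inl hi), Or.inr (Or.inr (Or.inl hi)),
        Or.inr (Or.inr (Or.inr hi))]
  have he : ∀ u v, L.graph.Adj u v → (L.inc u q ∧ L.inc v q ↔
      ∃ i : Fin 4, s(u, v) = s(c i, c (finRotate 4 i))) := by
    intro u v huv
    constructor
    · rintro ⟨hu, hv'⟩
      rw [h.inc] at hu hv'
      rcases hu with rfl | rfl | rfl | rfl <;> rcases hv' with rfl | rfl | rfl | rfl
      · exact absurd rfl huv.ne
      · exact ⟨0, rfl⟩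
      · exact absurd huv h.c02
      · exact ⟨3, Sym2.eq_swap⟩
      · exact ⟨0, Sym2.eq_swap⟩
      · exact absurd rfl huv.ne
      · exact ⟨1, rfl⟩
      · exact absurd huv h.c13
      · exact absurd huv.symm h.c02
      · exact ⟨1, Sym2.eq_swap⟩
      · exact absurd rfl huv.ne
      · exact ⟨2, rfl⟩
      · exact ⟨3, rfl⟩
      · exact absurd huv.symm h.c13
      · exact ⟨2, Sym2.eq_swap⟩
      · exact absurd rfl huv.ne
    · rintro ⟨i, hi⟩
      rw [hv, hv]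
      rcases Sym2.eq_iff.1 hi with ⟨h1, h2⟩ | ⟨h1, h2⟩
      · exact ⟨⟨_, h1⟩, ⟨_, h2⟩⟩
      · exact ⟨⟨_, h1⟩, ⟨_, h2⟩⟩
  refine ⟨c, hinj, hadj, fun v => (L.vinc_iff v q).trans (hv v), ?_, ?_⟩
  · rintro ⟨e, he'⟩
    induction e using Sym2.ind with
    | h u v => exact (L.einc_iff u v he' q).trans (he u v he')
  · intro i
    fin_cases i <;> rfl

lemma Quad.faceOK {q v0 v1 v2 v3 : ℤ × ℤ} (h : L.Quad q v0 v1 v2 v3) {s0 s1 s2 s3 : ℕ}
    (hd : Dih (L.val v0) (L.val v1) (L.val v2) (L.val v3) s0 s1 s2 s3) :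
    L.FaceOK q [s0, s1, s2, s3] := by
  rcases hd with h' | h' | h' | h' | h' | h' | h' | h' <;> obtain ⟨rfl, rfl, rfl, rfl⟩ := h'
  exacts [h.base, h.rot.base, h.rot.rot.base, h.rot.rot.rot.base, h.rev.base, h.rev.rot.base,
    h.rev.rot.rot.base, h.rev.rot.rot.rot.base]

variable (L)

lemma hasSeq_of {σ : List ℕ} (h : ∀ q, L.FaceOK q σ) : L.map.HasSeq σ := by
  intro f
  obtain ⟨q, rfl⟩ := L.face_surjective f
  exact h q

lemma quad0 (n t : ℤ) (h : L.a n (t + 1) = L.a n t) :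
    L.Quad (n, t) (L.a n t, n) (L.b n t, n + 1) (L.b n t + 1, n + 1) (L.b n t + 2, n + 1) := by
  have s1 := L.sum_eq n t
  have s2 := L.sum_eq n (t + 1)
  have hb : L.b n (t + 1) = L.b n t + 2 := by omega
  refine ⟨L.adj_c n t, L.adj_h _ _, ?_, ?_, ?_, ?_, ?_, ?_, ?_⟩
  · have := L.adj_h (L.b n t + 1) (n + 1)
    rwa [add_assoc] at this
  · have := (L.adj_c n (t + 1)).symm
    rwa [h, hb] at this
  · simp
  · simp
  · rintro (⟨h1, _⟩ | ⟨_, s, h1, h2⟩ | ⟨h1, _⟩)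
    · simp at h1
    · have := L.sum_eq n s
      simp only at h1 h2
      omega
    · simp only at h1; omega
  · rintro (⟨_, h1⟩ | ⟨h1, _⟩ | ⟨h1, _⟩) <;> simp only at h1 <;> omega
  · rintro ⟨i, m⟩
    simp only [inc, Prod.mk.injEq]
    omega

lemma quad1 (n t : ℤ) (h : L.a n (t + 1) = L.a n t + 1) :
    L.Quad (n, t) (L.a n t, n) (L.b n t, n + 1) (L.b n t + 1, n + 1) (L.a n t + 1, n) := by
  have s1 := L.sum_eq n t
  have s2 := L.sum_eq n (t + 1)
  have hb : L.b n (t + 1) = L.b n t + 1 := by omega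
  refine ⟨L.adj_c n t, L.adj_h _ _, ?_, (L.adj_h _ _).symm, ?_, ?_, ?_, ?_, ?_⟩
  · have := (L.adj_c n (t + 1)).symm
    rwa [h, hb] at this
  · simp
  · simp
  · rintro (⟨h1, _⟩ | ⟨_, s, h1, h2⟩ | ⟨h1, _⟩)
    · simp at h1
    · have := L.sum_eq n s
      simp only at h1 h2
      omega
    · simp only at h1; omega
  · rintro (⟨h1, _⟩ | ⟨h1, _⟩ | ⟨_, s, h1, h2⟩)
    · simp at h1
    · simp only at h1; omega
    · have := L.sum_eq n s
      simp only at h1 h2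
      omega
  · rintro ⟨i, m⟩
    simp only [inc, Prod.mk.injEq]
    omega

lemma quad2 (n t : ℤ) (h : L.b n (t + 1) = L.b n t) :
    L.Quad (n, t) (L.b n t, n + 1) (L.a n t, n) (L.a n t + 1, n) (L.a n t + 2, n) := by
  have s1 := L.sum_eq n t
  have s2 := L.sum_eq n (t + 1)
  have ha : L.a n (t + 1) = L.a n t + 2 := by omega
  refine ⟨(L.adj_c n t).symm, L.adj_h _ _, ?_, ?_, ?_, ?_, ?_, ?_, ?_⟩
  · have := L.adj_h (L.a n t + 1) n
    rwa [add_assoc] at this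
  · have := L.adj_c n (t + 1)
    rwa [h, ha] at this
  · simp
  · simp
  · rintro (⟨h1, _⟩ | ⟨h1, _⟩ | ⟨_, s, h1, h2⟩)
    · simp at h1
    · simp only at h1; omega
    · have := L.sum_eq n s
      simp only at h1 h2
      omega
  · rintro (⟨_, h1⟩ | ⟨h1, _⟩ | ⟨h1, _⟩) <;> simp only at h1 <;> omega
  · rintro ⟨i, m⟩
    simp only [inc, Prod.mk.injEq]
    omega

end Strips

namespace PlaneMap

lemma corona_iso {T T' : PlaneMap} (φ : T.V ≃ T'.V) (ψ : T.Face ≃ T'.Face)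
    (h : ∀ v f, T.VInc v f ↔ T'.VInc (φ v) (ψ f)) (x : T.V) (n : ℕ) :
    (∀ v, v ∈ (T.corona x n).1 ↔ φ v ∈ (T'.corona (φ x) n).1) ∧
      ∀ f, f ∈ (T.corona x n).2 ↔ ψ f ∈ (T'.corona (φ x) n).2 := by
  induction n with
  | zero => simp [corona]
  | succ n ih =>
    obtain ⟨ih1, ih2⟩ := ih
    have key : ∀ f, (f ∉ (T.corona x n).2 ∧ ∃ w ∈ (T.corona x n).1, T.VInc w f) ↔
        (ψ f ∉ (T'.corona (φ x) n).2 ∧ ∃ w ∈ (T'.corona (φ x) n).1, T'.VInc w (ψ f)) := by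
      intro f
      rw [ih2]
      refine and_congr Iff.rfl ⟨?_, ?_⟩
      · rintro ⟨w, hw, hw'⟩
        exact ⟨φ w, (ih1 w).1 hw, (h w f).1 hw'⟩
      · rintro ⟨w, hw, hw'⟩
        obtain ⟨w, rfl⟩ := φ.surjective w
        exact ⟨w, (ih1 w).2 hw, (h w f).2 hw'⟩
    refine ⟨fun v => ?_, key⟩
    simp only [corona, mem_ofPred_eq]
    rw [ih1]
    refine and_congr Iff.rfl ⟨?_, ?_⟩
    · rintro ⟨f, hf, hf'⟩
      exact ⟨ψ f, (key f).1 hf, (h v f).1 hf'⟩
    · rintro ⟨f, hf, hf'⟩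
      obtain ⟨f, rfl⟩ := ψ.surjective f
      exact ⟨f, (key f).2 hf, (h v f).2 hf'⟩

lemma growth_iso {T T' : PlaneMap} (h : T.Isomorphic T') (y : T'.V) :
    ∃ x : T.V, T.growth x = T'.growth y := by
  obtain ⟨φ, ψ, h⟩ := h
  obtain ⟨x, rfl⟩ := φ.toEquiv.surjective y
  refine ⟨x, ?_⟩
  unfold growth
  congr 1
  funext n
  have h2 := (corona_iso φ.toEquiv ψ h x n).2
  have : (T'.corona (φ.toEquiv x) n).2 = ψ '' (T.corona x n).2 := by
    ext f
    obtain ⟨f, rfl⟩ := ψ.surjective f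
    rw [← h2, ψ.injective.mem_set_image]
  rw [this, ψ.injective.encard_image]

end PlaneMap

end Pool.Agent.Lib.MP_864d8b_co
end
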