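import Pool.Agent.Lib.MP_864d8b_co.Examples

/-!
The growth rate does not depend on the root.
-/

namespace Pool.Agent.Lib.MP_864d8b_co

open Set Filter Topology

namespace PlaneMap

variable {T : PlaneMap} {σ : List ℕ}

lemma face_step {x w : T.V} {k : ℕ} {f : T.Face} (hw : w ∈ (T.corona x k).1) (h : T.VInc w f) :
    ∃ j ≤ k + 1, f ∈ (T.corona x j).2 := by
  by_cases e : f ∈ (T.corona x k).2
  · exact ⟨k, by omega, e⟩
  · exact ⟨k + 1, le_rfl, e, w, hw, h⟩

lemma vert_step {x v : T.V} {k : ℕ} {f : T.Face} (hf : f ∈ (T.corona x k).2) (h : T.VInc v f) :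
    ∃ j ≤ k, v ∈ (T.corona x j).1 := by
  rcases k with _ | k
  · exact hf.elim
  by_cases e : v ∈ (T.corona x k).1
  · exact ⟨k, by omega, e⟩
  · exact ⟨k + 1, le_rfl, e, f, hf, h⟩

lemma corona_sub {x y : T.V} {d : ℕ} (hy : y ∈ (T.corona x d).1) (n : ℕ) :
    (∀ v ∈ (T.corona y n).1, ∃ j ≤ n + d, v ∈ (T.corona x j).1) ∧
      ∀ f ∈ (T.corona y n).2, ∃ j ≤ n + d, f ∈ (T.corona x j).2 := by
  induction n with
  | zero => exact ⟨fun v hv => ⟨d, by omega, (show v = y from hv) ▸ hy⟩, fun f hf => hf.elim⟩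
  | succ n ih =>
    have k : ∀ f ∈ (T.corona y (n + 1)).2, ∃ j ≤ n + 1 + d, f ∈ (T.corona x j).2 := by
      rintro f ⟨-, w, hw, h⟩
      obtain ⟨j, hj, hw'⟩ := ih.1 w hw
      obtain ⟨i, hi, hf⟩ := face_step hw' h
      exact ⟨i, by omega, hf⟩
    refine ⟨?_, k⟩
    rintro v ⟨-, f, hf, h⟩
    obtain ⟨j, hj, hf'⟩ := k f hf
    obtain ⟨i, hi, hv⟩ := vert_step hf' h
    exact ⟨i, by omega, hv⟩

lemma pos_mem_arc {u v : T.V} (h : T.G.Adj u v) :
    T.pos u ∈ T.arc ⟨s(u, v), h⟩ ∧ T.pos v ∈ T.arc ⟨s(u, v), h⟩ := by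
  obtain ⟨γ, -, e⟩ := T.arc_spec u v h
  exact e ▸ ⟨⟨0, γ.source⟩, ⟨1, γ.target⟩⟩

lemma exists_layer (hT : T.IsTessellation) (hE : ∀ e, ∃ f, T.EInc e f) (x y : T.V) :
    ∃ d, y ∈ (T.corona x d).1 := by
  have hr : T.G.Reachable x y := by
    have := (hT.three_connected ∅ (by simp)).preconnected ⟨x, by simp⟩ ⟨y, by simp⟩
    exact this.map (SimpleGraph.Embedding.induce _).toHom
  rw [SimpleGraph.reachable_iff_reflTransGen] at hr
  induction hr with
  | refl => exact ⟨0, rfl⟩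
  | tail _ h ih =>
    obtain ⟨d, hd⟩ := ih
    obtain ⟨f, hf⟩ := hE ⟨s(_, _), h⟩
    obtain ⟨j, -, hj⟩ := face_step hd (hf (pos_mem_arc h).1)
    obtain ⟨i, -, hi⟩ := vert_step hj (hf (pos_mem_arc h).2)
    exact ⟨i, hi⟩

lemma corona_finite (hT : T.IsTessellation) (hs : T.HasSeq σ) (x : T.V) (n : ℕ) :
    (T.corona x n).1.Finite ∧ (T.corona x n).2.Finite := by
  have h1 : ∀ v, {f | T.VInc v f}.Finite := fun v => by
    obtain ⟨N, hN, -, -, h⟩ := hT.no_accumulation (T.pos v)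
    exact h.subset fun f hf => by
      obtain ⟨p, hp⟩ := mem_closure_iff_nhds.1 hf N hN
      exact ⟨p, hp.2, hp.1⟩
  have h2 : ∀ f, {v | T.VInc v f}.Finite := fun f => by
    obtain ⟨c, -, -, h, -⟩ := hs f
    exact (finite_range c).subset fun v hv => ((h v).1 hv).imp fun _ e => e.symm
  induction n with
  | zero => exact ⟨finite_singleton x, finite_empty⟩
  | succ n ih =>
    have k : (T.corona x (n + 1)).2.Finite :=
      (ih.1.biUnion fun w _ => h1 w).subset fun f ⟨_, w, hw, h⟩ => mem_biUnion hw h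
    exact ⟨(k.biUnion fun f _ => h2 f).subset fun v ⟨_, f, hf, h⟩ => mem_biUnion hf h, k⟩

lemma one_le_growth (hT : T.IsTessellation) (hs : T.HasSeq σ) (hE : ∀ e, ∃ f, T.EInc e f)
    (x : T.V) : 1 ≤ T.growth x := by
  have ne : ∀ n, (T.corona x (n + 1)).2.Nonempty := fun n => by
    by_contra h
    have k : ∀ m, (T.corona x (n + 1 + m)).1 = ∅ := fun m => by
      induction m with
      | zero => exact eq_empty_of_forall_notMem fun v ⟨_, f, hf, _⟩ => h ⟨f, hf⟩
      | succ m ih =>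
        exact eq_empty_of_forall_notMem fun v ⟨_, f, ⟨_, w, hw, _⟩, _⟩ => (ih.le hw).elim
    have := hT.infinite
    refine infinite_univ (α := T.V) (((finite_le_nat n).biUnion fun j _ =>
      (corona_finite hT hs x j).1).subset fun y _ => ?_)
    obtain ⟨d, hd⟩ := exists_layer hT hE x y
    refine mem_biUnion (show d ≤ n from ?_) hd
    by_contra hn
    obtain ⟨m, rfl⟩ := Nat.exists_eq_add_of_le (show n + 1 ≤ d by omega)
    rw [k m] at hd
    exact hd
  refine le_limsup_of_frequently_le (Eventually.frequently ?_) (by isBoundedDefault)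
  filter_upwards [eventually_ge_atTop 1] with n hn
  obtain ⟨m, rfl⟩ := Nat.exists_eq_add_of_le' hn
  exact ENNReal.one_le_rpow (by exact_mod_cast one_le_encard_iff_nonempty.2 (ne m)) (by positivity)

lemma growth_le_growth (hT : T.IsTessellation) (hs : T.HasSeq σ) (hE : ∀ e, ∃ f, T.EInc e f)
    (x y : T.V) : T.growth y ≤ T.growth x := by
  obtain ⟨d, hd⟩ := exists_layer hT hE x y
  refine ENNReal.le_of_forall_pos_le_add fun ε hε hg => ?_
  have h1 := one_le_growth hT hs hE x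
  set g := (T.growth x).toReal with hgd
  have eg : T.growth x = ENNReal.ofReal g := (ENNReal.ofReal_toReal hg.ne).symm
  have g1 : 1 ≤ g := by rwa [eg, ENNReal.one_le_ofReal] at h1
  have ε0 : (0 : ℝ) < ε := hε
  have lt : T.growth x < ENNReal.ofReal (g + ε / 2) := by
    rw [eg, ENNReal.ofReal_lt_ofReal_iff (by linarith)]; linarith
  obtain ⟨N, hN⟩ := eventually_atTop.1 (eventually_lt_of_limsup_lt lt)
  set c := g + ε / 2 with hc
  have c1 : 1 ≤ c := by linarith
  obtain ⟨a, ha⟩ : ∃ a : ℕ → ℕ, ∀ j, (T.corona x j).2.encard = a j :=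
    ⟨_, fun j => ((corona_finite hT hs x j).2.cast_ncard_eq).symm⟩
  obtain ⟨B, B1, hB⟩ : ∃ B : ℝ, 1 ≤ B ∧ ∀ j, (a j : ℝ) ≤ B * c ^ j := by
    refine ⟨1 + ∑ j ∈ Finset.range (N + 1), a j, le_add_of_nonneg_right (by positivity), fun j => ?_⟩
    have p := one_le_pow₀ (n := j) c1
    by_cases e : j ≤ N
    · have : (a j : ℝ) ≤ ∑ j ∈ Finset.range (N + 1), a j := by
        exact_mod_cast Finset.single_le_sum (f := a) (fun _ _ => Nat.zero_le _)
          (Finset.mem_range.2 (by omega))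
      nlinarith [(by positivity : (0 : ℝ) ≤ ((∑ j ∈ Finset.range (N + 1), a j : ℕ) : ℝ))]
    · have k := ENNReal.rpow_le_rpow (hN j (by omega)).le (show (0 : ℝ) ≤ j by positivity)
      have j0 : (j : ℝ) ≠ 0 := by exact_mod_cast (by omega : j ≠ 0)
      rw [← ENNReal.rpow_mul, one_div_mul_cancel j0, ENNReal.rpow_one, ha, ENNReal.rpow_natCast,
        ← ENNReal.ofReal_pow (by linarith)] at k
      have k' : (a j : ℝ) ≤ c ^ j := by
        rw [← ENNReal.ofReal_le_ofReal_iff (by positivity), ENNReal.ofReal_natCast]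
        exact_mod_cast k
      nlinarith [(by positivity : (0 : ℝ) ≤ ((∑ j ∈ Finset.range (N + 1), a j : ℕ) : ℝ))]
  rw [eg, ← ENNReal.ofReal_coe_nnreal, ← ENNReal.ofReal_add (by linarith) ε0.le]
  refine limsup_le_of_bound (fun n => (T.corona y n).2.encard) ((d + 1) * B * c ^ d) c _
    (by linarith) (by linarith) fun n => ⟨_, ((corona_finite hT hs y n).2.cast_ncard_eq).symm, ?_⟩
  have s1 : (T.corona y n).2.encard ≤ ∑ j ∈ Finset.range (n + d + 1), (T.corona x j).2.encard := by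
    refine (encard_le_encard fun f hf => ?_).trans (Finset.set_encard_biUnion_le _ _)
    obtain ⟨j, hj, h⟩ := (corona_sub hd n).2 f hf
    exact mem_biUnion (Finset.mem_coe.2 (Finset.mem_range.2 (by omega))) h
  simp only [ha, ← (corona_finite hT hs y n).2.cast_ncard_eq] at s1
  have s2 : ((T.corona y n).2.ncard : ℝ) ≤ ∑ j ∈ Finset.range (n + d + 1), (a j : ℝ) := by
    exact_mod_cast s1
  refine s2.trans ((Finset.sum_le_card_nsmul _ _ (B * c ^ (n + d)) fun j hj => (hB j).trans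
    (mul_le_mul_of_nonneg_left (pow_le_pow_right₀ c1 (by
      have := Finset.mem_range.1 hj; omega)) (by linarith))).trans ?_)
  rw [Finset.card_range, nsmul_eq_mul, pow_add]
  have s3 : ((n + d + 1 : ℕ) : ℝ) ≤ (d + 1) * (n + 1) ^ 2 := by
    exact_mod_cast (by nlinarith [Nat.zero_le (d * n), Nat.zero_le (n * n), Nat.zero_le (d * n * n)] :
      n + d + 1 ≤ (d + 1) * (n + 1) ^ 2)
  calc _ ≤ (d + 1) * (n + 1) ^ 2 * (B * (c ^ n * c ^ d)) :=
        mul_le_mul_of_nonneg_right s3 (by positivity)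
    _ = _ := by ring

end PlaneMap

theorem Sys.growth_eq {A : Type} {s0 s1 s2 s3 : ℕ} (S : Sys A s0 s1 s2 s3) (x y : ℤ × ℤ) :
    S.strips.map.growth x = S.strips.map.growth y :=
  have h := PlaneMap.growth_le_growth S.strips.isTessellation S.hasSeq fun e =>
    let ⟨_, h⟩ := S.strips.exists_einc e; ⟨_, h⟩
  le_antisymm (h y x) (h x y)

end Pool.Agent.Lib.MP_864d8b_co
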